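import Pool.Agent.Q214.CL.Uni

set_option autoImplicit false

namespace Pool.Agent.Q214.CL

open Pool.Agent.Q214.MP59a

theorem sum_ind {Ω : Type} [Fintype Ω] (P : Ω → Prop) :
    ∑ ω, ind (P ω) = (Nat.card {ω // P ω} : ℝ) := by
  classical
  rw [Nat.card_eq_fintype_card, Fintype.card_subtype]
  simp only [ind_eq_ite]
  rw [Finset.sum_boole]

theorem span_top_iff {m : ℕ} {Q : Type} [AddCommGroup Q] [Module (ZMod m) Q] (s : Set Q) :
    Submodule.span (ZMod m) s = ⊤ ↔ AddSubgroup.closure s = ⊤ := by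
  constructor
  · intro h
    rw [eq_top_iff]
    intro x _
    have hx : x ∈ Submodule.span (ZMod m) s := by rw [h]; trivial
    have : Submodule.span (ZMod m) s ≤ AddSubgroup.toZModSubmodule m (AddSubgroup.closure s) :=
      Submodule.span_le.2 AddSubgroup.subset_closure
    exact this hx
  · intro h
    rw [eq_top_iff]
    intro x _
    have hx : x ∈ AddSubgroup.closure s := by rw [h]; trivial
    have : AddSubgroup.closure s ≤ (Submodule.span (ZMod m) s).toAddSubgroup :=
      (AddSubgroup.closure_le _).2 Submodule.subset_span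
    exact this hx

theorem card_ker_mul {A B : Type} [AddCommGroup A] [AddCommGroup B] (f : A →+ B) :
    Nat.card f.ker * Nat.card f.range = Nat.card A := by
  rw [← AddSubgroup.index_ker, AddSubgroup.card_mul_index]

theorem li_prob (p n : ℕ) [Fact p.Prime] (V : Type) [AddCommGroup V] [Module (ZMod p) V]
    [Fintype V] (hV : Fintype.card V = p ^ n) :
    av (fun v : Fin n → V => ind (LinearIndependent (ZMod p) v)) = Cq p n := by
  classical
  have hp : p.Prime := Fact.out
  have hfin : Module.Finite (ZMod p) V := Module.Finite.of_finite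
  have hfr : Module.finrank (ZMod p) V = n := by
    have h := Module.card_eq_pow_finrank (K := ZMod p) (V := V)
    rw [hV, ZMod.card] at h
    exact (Nat.pow_right_injective hp.two_le h).symm
  unfold av
  rw [sum_ind, card_linearIndependent (K := ZMod p) (V := V) (by rw [hfr]), hfr]
  simp only [ZMod.card, Fintype.card_fun, Fintype.card_fin, hV]
  push_cast
  have hp0 : (p : ℝ) ≠ 0 := by exact_mod_cast hp.ne_zero
  have h1 : ∀ i : Fin n, ((p ^ n - p ^ (i : ℕ) : ℕ) : ℝ) = (p : ℝ) ^ n *
      (1 - ((p : ℝ) ^ (n - (i : ℕ)))⁻¹) := by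
    intro i
    rw [Nat.cast_sub (Nat.pow_le_pow_right hp.pos i.2.le)]
    push_cast
    have : (p : ℝ) ^ n = (p : ℝ) ^ (n - (i : ℕ)) * (p : ℝ) ^ (i : ℕ) := by
      rw [← pow_add]
      congr 1
      omega
    rw [mul_sub, mul_one, this]
    field_simp
  rw [Finset.prod_congr rfl fun i _ => h1 i, Finset.prod_mul_distrib, Finset.prod_const,
    Finset.card_univ, Fintype.card_fin]
  rw [mul_div_cancel_left₀ _ (pow_ne_zero _ (pow_ne_zero _ hp0))]
  rw [Fin.prod_univ_eq_prod_range (fun i => 1 - ((p : ℝ) ^ (n - i))⁻¹) n]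
  have := prod_rev (p : ℝ) n 0
  rw [Cq_zero, mul_one, add_zero] at this
  exact this

theorem li_iff (p n : ℕ) [Fact p.Prime] {V : Type} [AddCommGroup V] [Module (ZMod p) V]
    [Finite V] (hfr : Module.finrank (ZMod p) V = n) (x : Fin n → V) :
    LinearIndependent (ZMod p) x ↔ AddSubgroup.closure (Set.range x) = ⊤ := by
  have hfin : Module.Finite (ZMod p) V := Module.Finite.of_finite
  rw [← span_top_iff (m := p)]
  constructor
  · intro h
    exact h.span_eq_top_of_card_eq_finrank' (by rw [hfr, Fintype.card_fin])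
  · intro h
    refine linearIndependent_of_top_le_span_of_card_eq_finrank (top_le_iff.2 h) ?_
    rw [hfr, Fintype.card_fin]

theorem gen_prob (p n N : ℕ) [Fact p.Prime] (K : Type) [AddCommGroup K] [Fintype K]
    (hN : ∀ x : K, p ^ N • x = 0)
    (hcard : Nat.card (nsmulAddMonoidHom p : K →+ K).ker = p ^ n) :
    av (fun z : Fin n → K => ind (AddSubgroup.closure (Set.range z) = ⊤)) = Cq p n := by
  classical
  have hp : p.Prime := Fact.out
  let P : AddSubgroup K := (nsmulAddMonoidHom p : K →+ K).range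
  let _ : Module (ZMod p) (K ⧸ P) := QuotientAddGroup.zmodModule (fun x => ⟨x, rfl⟩)
  let _ : Fintype (K ⧸ P) := Fintype.ofFinite _
  have hV : Fintype.card (K ⧸ P) = p ^ n := by
    have h1 := card_ker_mul (nsmulAddMonoidHom p : K →+ K)
    have h2 := AddSubgroup.card_eq_card_quotient_mul_card_addSubgroup P
    rw [hcard] at h1
    rw [← h1] at h2
    have h3 : 0 < Nat.card P := Nat.card_pos
    have h4 : p ^ n * Nat.card P = Nat.card (K ⧸ P) * Nat.card P := h2
    have h5 := Nat.eq_of_mul_eq_mul_right h3 h4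
    rw [h5, Nat.card_eq_fintype_card]
  have hfr : Module.finrank (ZMod p) (K ⧸ P) = n := by
    have h := Module.card_eq_pow_finrank (K := ZMod p) (V := K ⧸ P)
    rw [hV, ZMod.card] at h
    exact (Nat.pow_right_injective hp.two_le h).symm
  rw [← li_prob p n (K ⧸ P) hV]
  let q : K →+ K ⧸ P := QuotientAddGroup.mk' P
  have hq : Function.Surjective q := QuotientAddGroup.mk'_surjective P
  have hun : Unif (fun (z : Fin n → K) (j : Fin n) => q (z j)) :=
    unif_pi (fun _ x => q x) fun _ => unif_hom q hq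
  rw [← hun]
  congr 1
  funext z
  congr 1
  apply propext
  rw [li_iff p n hfr]
  have h2 : AddSubgroup.closure (Set.range fun j => q (z j)) =
      AddSubgroup.map q (AddSubgroup.closure (Set.range z)) := by
    rw [AddMonoidHom.map_closure, ← Set.range_comp]
    rfl
  rw [h2]
  constructor
  · intro h
    rw [h, ← AddMonoidHom.range_eq_map]
    exact AddMonoidHom.range_eq_top.2 hq
  · intro h
    have h3 : ∀ x : K, ∃ t ∈ AddSubgroup.closure (Set.range z), ∃ w : K, x = t + p • w := by
      intro x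
      have hx : q x ∈ AddSubgroup.map q (AddSubgroup.closure (Set.range z)) := by
        rw [h]; trivial
      obtain ⟨t, ht, htx⟩ := AddSubgroup.mem_map.1 hx
      have h4 : -t + x ∈ P := QuotientAddGroup.eq.1 htx
      obtain ⟨w, hw⟩ := h4
      refine ⟨t, ht, w, ?_⟩
      have : p • w = -t + x := hw
      rw [this]
      abel
    have h4 : ∀ m : ℕ, ∀ x : K, ∃ t ∈ AddSubgroup.closure (Set.range z), ∃ w : K,
        x = t + p ^ m • w := by
      intro m
      induction m with
      | zero => intro x; exact ⟨0, AddSubgroup.zero_mem _, x, by simp⟩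
      | succ m ih =>
        intro x
        obtain ⟨t, ht, w, hw⟩ := ih x
        obtain ⟨t', ht', w', hw'⟩ := h3 w
        refine ⟨t + p ^ m • t', AddSubgroup.add_mem _ ht (AddSubgroup.nsmul_mem _ ht' _), w', ?_⟩
        have hpp : p ^ (m + 1) = p ^ m * p := pow_succ _ _
        rw [hw, hw', nsmul_add, hpp, mul_nsmul', add_assoc]
    rw [eq_top_iff]
    intro x _
    obtain ⟨t, ht, w, hw⟩ := h4 N x
    rw [hN, add_zero] at hw
    rw [hw]
    exact ht

section

variable (p M : ℕ) [hp : Fact p.Prime]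

theorem card_ker_full (n : ℕ) : Nat.card (nsmulAddMonoidHom p :
    (Fin n → ZMod (p ^ (M + 1))) →+ (Fin n → ZMod (p ^ (M + 1)))).ker = p ^ n := by
  have h1 := card_ker_mul (nsmulAddMonoidHom p :
    (Fin n → ZMod (p ^ (M + 1))) →+ (Fin n → ZMod (p ^ (M + 1))))
  have h2 := card_ker_mul ((redL p M n : (Fin n → ZMod (p ^ (M + 1))) →ₛₗ[red p M]
    (Fin n → ZMod p)).toAddMonoidHom)
  have h3 : (nsmulAddMonoidHom p :
    (Fin n → ZMod (p ^ (M + 1))) →+ (Fin n → ZMod (p ^ (M + 1)))).range =
      ((redL p M n : (Fin n → ZMod (p ^ (M + 1))) →ₛₗ[red p M]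
    (Fin n → ZMod p)).toAddMonoidHom).ker := by
    ext x
    constructor
    · rintro ⟨y, rfl⟩
      rw [AddMonoidHom.mem_ker]
      funext i
      change red p M (p • y i) = 0
      rw [map_nsmul, nsmul_eq_mul]
      simp
    · intro hx
      have : ∀ i, ∃ y, x i = (p : ZMod (p ^ (M + 1))) * y := by
        intro i
        apply red_ker
        have := congrFun (AddMonoidHom.mem_ker.1 hx) i
        exact this
      choose y hy using this
      refine ⟨y, ?_⟩
      funext i
      change p • y i = x i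
      rw [hy i, nsmul_eq_mul]
  have h4 : ((redL p M n : (Fin n → ZMod (p ^ (M + 1))) →ₛₗ[red p M]
    (Fin n → ZMod p)).toAddMonoidHom).range = ⊤ :=
    AddMonoidHom.range_eq_top.2 (redL_surj p M n)
  rw [h4, ← h3] at h2
  have h5 : Nat.card (⊤ : AddSubgroup (Fin n → ZMod p)) = p ^ n := by
    rw [AddSubgroup.card_top]
    simp
  rw [h5] at h2
  rw [← h1] at h2
  have h6 : 0 < Nat.card (nsmulAddMonoidHom p :
    (Fin n → ZMod (p ^ (M + 1))) →+ (Fin n → ZMod (p ^ (M + 1)))).range := Nat.card_pos
  rw [mul_comm] at h2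
  exact (Nat.eq_of_mul_eq_mul_right h6 h2).symm

theorem torsion_coord {x : ZMod (p ^ (M + 1))} (hx : p • x = 0) :
    ∃ y : ZMod (p ^ (M + 1)), x = p ^ M • y := by
  have h1 : (x.val : ZMod (p ^ (M + 1))) = x := ZMod.natCast_zmod_val x
  have h2 : ((p * x.val : ℕ) : ZMod (p ^ (M + 1))) = 0 := by
    push_cast
    rw [h1, ← nsmul_eq_mul]
    exact hx
  have h3 := (ZMod.natCast_eq_zero_iff _ _).1 h2
  have h4 : p * p ^ M ∣ p * x.val := (dvd_of_eq (pow_succ' p M).symm).trans h3
  obtain ⟨k, hk⟩ := Nat.dvd_of_mul_dvd_mul_left hp.1.pos h4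
  refine ⟨(k : ZMod (p ^ (M + 1))), ?_⟩
  rw [← h1, hk, nsmul_eq_mul]
  push_cast
  rfl

theorem card_ker_sub (n : ℕ) (T : Submodule (ZMod (p ^ (M + 1))) (Fin n → ZMod (p ^ (M + 1))))
    (hT : ∀ x : Fin n → ZMod (p ^ (M + 1)), p ^ M • x ∈ T) :
    Nat.card (nsmulAddMonoidHom p : T →+ T).ker = p ^ n := by
  rw [← card_ker_full p M n]
  symm
  have hmem : ∀ x : Fin n → ZMod (p ^ (M + 1)), p • x = 0 → x ∈ T := by
    intro x hx
    have : ∀ i, ∃ y : ZMod (p ^ (M + 1)), x i = p ^ M • y := by
      intro i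
      apply torsion_coord
      exact congrFun hx i
    choose y hy using this
    have h2 : x = p ^ M • y := funext hy
    rw [h2]
    exact hT y
  have hker : ∀ x : (nsmulAddMonoidHom p :
      (Fin n → ZMod (p ^ (M + 1))) →+ (Fin n → ZMod (p ^ (M + 1)))).ker,
      p • (x : Fin n → ZMod (p ^ (M + 1))) = 0 := fun x => AddMonoidHom.mem_ker.1 x.2
  refine Nat.card_eq_of_bijective (fun x => (⟨⟨x.1, hmem x.1 (hker x)⟩, ?_⟩ :
    (nsmulAddMonoidHom p : T →+ T).ker)) ⟨?_, ?_⟩
  · rw [AddMonoidHom.mem_ker]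
    apply Subtype.ext
    exact hker x
  · intro x y hxy
    apply Subtype.ext
    exact congrArg (fun z : (nsmulAddMonoidHom p : T →+ T).ker =>
      (z.1.1 : Fin n → ZMod (p ^ (M + 1)))) hxy
  · rintro ⟨⟨x, hxT⟩, hx⟩
    refine ⟨⟨x, ?_⟩, rfl⟩
    rw [AddMonoidHom.mem_ker] at hx ⊢
    exact congrArg Subtype.val hx

/-- Generation probability for a large submodule. -/
theorem gen_sub (n : ℕ) (T : Submodule (ZMod (p ^ (M + 1))) (Fin n → ZMod (p ^ (M + 1))))
    (hT : ∀ x : Fin n → ZMod (p ^ (M + 1)), p ^ M • x ∈ T) :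
    ∑ z : Fin n → Fin n → ZMod (p ^ (M + 1)),
      ind (T = Submodule.span (ZMod (p ^ (M + 1))) (Set.range z)) =
      (Nat.card T : ℝ) ^ n * Cq p n := by
  classical
  let _ : Fintype T := Fintype.ofFinite _
  have hN : ∀ x : T, p ^ (M + 1) • x = 0 := by
    intro x
    apply Subtype.ext
    funext i
    change p ^ (M + 1) • (x.1 i) = 0
    rw [nsmul_eq_mul]
    push_cast
    rw [p_pow, zero_mul]
  have h1 := gen_prob p n (M + 1) T hN (card_ker_sub p M n T hT)
  unfold av at h1
  rw [sum_ind, Fintype.card_fun, Fintype.card_fin, ← Nat.card_eq_fintype_card] at h1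
  have hpos : ((Nat.card T ^ n : ℕ) : ℝ) ≠ 0 := by
    have : Nat.card T ≠ 0 := Nat.card_pos.ne'
    exact_mod_cast pow_ne_zero _ this
  rw [div_eq_iff hpos] at h1
  push_cast at h1
  rw [mul_comm, ← h1, sum_ind]
  congr 1
  symm
  have hiff : ∀ w : Fin n → T, AddSubgroup.closure (Set.range w) = ⊤ ↔
      T = Submodule.span (ZMod (p ^ (M + 1))) (Set.range fun j => (w j : Fin n → _)) := by
    intro w
    rw [← span_top_iff (m := p ^ (M + 1))]
    have h2 : (Submodule.span (ZMod (p ^ (M + 1))) (Set.range w)).map T.subtype =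
        Submodule.span (ZMod (p ^ (M + 1))) (Set.range fun j => (w j : Fin n → _)) := by
      rw [Submodule.map_span, ← Set.range_comp]
      rfl
    rw [← h2]
    constructor
    · intro h
      rw [h, Submodule.map_top, Submodule.range_subtype]
    · intro h
      apply Submodule.map_injective_of_injective T.injective_subtype
      rw [← h, Submodule.map_top, Submodule.range_subtype]
  refine Nat.card_eq_of_bijective
    (fun w : {w : Fin n → T // AddSubgroup.closure (Set.range w) = ⊤} =>
      (⟨fun j => (w.1 j : Fin n → _), (hiff w.1).1 w.2⟩ :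
        {z : Fin n → Fin n → ZMod (p ^ (M + 1)) //
          T = Submodule.span (ZMod (p ^ (M + 1))) (Set.range z)})) ⟨?_, ?_⟩
  · intro w w' hww
    apply Subtype.ext
    funext j
    apply Subtype.ext
    exact congrFun (congrArg Subtype.val hww) j
  · rintro ⟨z, hz⟩
    have hzT : ∀ j, z j ∈ T := by
      intro j
      rw [hz]
      exact Submodule.subset_span ⟨j, rfl⟩
    exact ⟨⟨fun j => ⟨z j, hzT j⟩, (hiff _).2 hz⟩, rfl⟩

end

/-- Number of surjections with a given kernel. -/
theorem count_aut {m : ℕ} {Q G : Type} [AddCommGroup Q] [AddCommGroup G] [Module (ZMod m) Q]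
    [Module (ZMod m) G] [Finite Q] [Finite G] (T : Submodule (ZMod m) Q) :
    (Nat.card {φ : Q →ₗ[ZMod m] G // Function.Surjective φ ∧ LinearMap.ker φ = T} : ℝ) =
      ind (Nonempty ((Q ⧸ T) ≃+ G)) * (Nat.card (AddAut G) : ℝ) := by
  classical
  by_cases h : Nonempty ((Q ⧸ T) ≃+ G)
  · rw [ind_true h, one_mul]
    obtain ⟨e⟩ := h
    let φ0 : Q →ₗ[ZMod m] G := (AddMonoidHom.toZModLinearMap m e.toAddMonoidHom).comp T.mkQ
    have hs0 : Function.Surjective φ0 := e.surjective.comp T.mkQ_surjective
    have hk0 : LinearMap.ker φ0 = T := by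
      ext x
      rw [LinearMap.mem_ker]
      change e (T.mkQ x) = 0 ↔ _
      rw [EmbeddingLike.map_eq_zero_iff]
      simp
    congr 1
    symm
    have hcomp : ∀ α : AddAut G, Function.Surjective
        ((AddMonoidHom.toZModLinearMap m (α : G ≃+ G).toAddMonoidHom).comp φ0) ∧
        LinearMap.ker ((AddMonoidHom.toZModLinearMap m (α : G ≃+ G).toAddMonoidHom).comp φ0) =
          T := by
      intro α
      refine ⟨(α : G ≃+ G).surjective.comp hs0, ?_⟩
      ext x
      rw [← hk0, LinearMap.mem_ker, LinearMap.mem_ker]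
      change (α : G ≃+ G) (φ0 x) = 0 ↔ _
      exact EmbeddingLike.map_eq_zero_iff
    refine Nat.card_eq_of_bijective (fun α : AddAut G =>
      (⟨(AddMonoidHom.toZModLinearMap m (α : G ≃+ G).toAddMonoidHom).comp φ0, hcomp α⟩ :
        {φ : Q →ₗ[ZMod m] G // Function.Surjective φ ∧ LinearMap.ker φ = T})) ⟨?_, ?_⟩
    · intro α β hαβ
      have h1 := congrArg Subtype.val hαβ
      apply AddEquiv.ext
      intro g
      obtain ⟨x, rfl⟩ := hs0 g
      exact LinearMap.congr_fun h1 x
    · rintro ⟨φ, hφs, hφk⟩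
      let α : G ≃ₗ[ZMod m] G := (LinearMap.quotKerEquivOfSurjective φ0 hs0).symm.trans
        ((Submodule.quotEquivOfEq _ _ (hk0.trans hφk.symm)).trans
          (LinearMap.quotKerEquivOfSurjective φ hφs))
      refine ⟨α.toAddEquiv, ?_⟩
      apply Subtype.ext
      apply LinearMap.ext
      intro x
      change (LinearMap.quotKerEquivOfSurjective φ hφs) ((Submodule.quotEquivOfEq _ _
        (hk0.trans hφk.symm)) ((LinearMap.quotKerEquivOfSurjective φ0 hs0).symm (φ0 x))) = φ x
      have : (LinearMap.quotKerEquivOfSurjective φ0 hs0).symm (φ0 x) =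
          (LinearMap.ker φ0).mkQ x := by
        rw [LinearEquiv.symm_apply_eq]
        rfl
      rw [this]
      rfl
  · rw [ind_false h, zero_mul]
    have : IsEmpty {φ : Q →ₗ[ZMod m] G // Function.Surjective φ ∧ LinearMap.ker φ = T} := by
      refine ⟨fun ⟨φ, hs, hk⟩ => h ⟨?_⟩⟩
      exact ((Submodule.quotEquivOfEq _ _ hk.symm).trans
        (LinearMap.quotKerEquivOfSurjective φ hs)).toAddEquiv
    simp

theorem finite_lin (A Q G : Type) [CommRing A] [AddCommGroup Q] [AddCommGroup G] [Module A Q]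
    [Module A G] [Finite Q] [Finite G] : Finite (Q →ₗ[A] G) :=
  Finite.of_injective (fun (φ : Q →ₗ[A] G) (x : Q) => φ x)
    (fun _ _ h => LinearMap.ext fun x => congrFun h x)

section

variable (p M : ℕ) [hp : Fact p.Prime]

/-- Exact formula of Friedman and Washington. -/
theorem hG_formula' (n : ℕ) (G : Type) [AddCommGroup G] [Fintype G]
    [Module (ZMod (p ^ (M + 1))) G] (hG' : ∀ g : G, p ^ M • g = 0) :
    hG p M n G * (Nat.card (AddAut G) : ℝ) =
      av (fun g : Fin n → G => ind (AddSubgroup.closure (Set.range g) = ⊤)) * Cq p n := by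
  classical
  let R := ZMod (p ^ (M + 1))
  have hfin : Finite ((Fin n → R) →ₗ[R] G) :=
    finite_lin _ _ _
  let _ : Fintype ((Fin n → R) →ₗ[R] G) := Fintype.ofFinite _
  have hA : ∀ z : Fin n → Fin n → R, ∑ φ : (Fin n → R) →ₗ[R] G,
      ind (Function.Surjective φ ∧ LinearMap.ker φ = Submodule.span R (Set.range z)) =
      ind (Nonempty (((Fin n → R) ⧸ Submodule.span R (Set.range z)) ≃+ G)) *
        (Nat.card (AddAut G) : ℝ) := by
    intro z
    rw [sum_ind]
    exact count_aut (m := p ^ (M + 1)) _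
  have hB : ∀ φ : (Fin n → R) →ₗ[R] G, ∑ z : Fin n → Fin n → R,
      ind (Function.Surjective φ ∧ LinearMap.ker φ = Submodule.span R (Set.range z)) =
      ind (Function.Surjective φ) * (((Nat.card (Fin n → R) : ℝ) / Nat.card G) ^ n * Cq p n) := by
    intro φ
    by_cases hs : Function.Surjective φ
    · have h1 : ∀ z : Fin n → Fin n → R, ind (Function.Surjective φ ∧
          LinearMap.ker φ = Submodule.span R (Set.range z)) =
          ind (LinearMap.ker φ = Submodule.span R (Set.range z)) := by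
        intro z
        congr 1
        exact propext ⟨fun h => h.2, fun h => ⟨hs, h⟩⟩
      simp only [h1]
      rw [gen_sub p M n (LinearMap.ker φ) (by
        intro x
        rw [LinearMap.mem_ker, map_nsmul, hG']), ind_true hs, one_mul]
      congr 2
      have h2 := card_ker_mul φ.toAddMonoidHom
      have h3 : φ.toAddMonoidHom.range = ⊤ := AddMonoidHom.range_eq_top.2 hs
      rw [h3, AddSubgroup.card_top] at h2
      have h4 : Nat.card φ.toAddMonoidHom.ker = Nat.card (LinearMap.ker φ) := rfl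
      rw [h4] at h2
      have h5 : (Nat.card G : ℝ) ≠ 0 := by exact_mod_cast Nat.card_pos.ne'
      rw [eq_div_iff h5]
      exact_mod_cast h2
    · have h1 : ∀ z : Fin n → Fin n → R, ind (Function.Surjective φ ∧
          LinearMap.ker φ = Submodule.span R (Set.range z)) = 0 := by
        intro z
        exact ind_false fun h => hs h.1
      simp only [h1]
      rw [ind_false hs, zero_mul]
      simp
  have hsum : ∑ z : Fin n → Fin n → R,
      ind (Nonempty (((Fin n → R) ⧸ Submodule.span R (Set.range z)) ≃+ G)) *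
        (Nat.card (AddAut G) : ℝ) =
      ∑ φ : (Fin n → R) →ₗ[R] G, ind (Function.Surjective φ) *
        (((Nat.card (Fin n → R) : ℝ) / Nat.card G) ^ n * Cq p n) := by
    rw [← Finset.sum_congr rfl fun z _ => hA z, Finset.sum_comm]
    exact Finset.sum_congr rfl fun φ _ => hB φ
  rw [← Finset.sum_mul, ← Finset.sum_mul] at hsum
  have hconv : ∑ φ : (Fin n → R) →ₗ[R] G, ind (Function.Surjective φ) =
      ∑ g : Fin n → G, ind (AddSubgroup.closure (Set.range g) = ⊤) := by
    have e : (Fin n → G) ≃ₗ[ℕ] ((Fin n → R) →ₗ[R] G) := (Pi.basisFun R (Fin n)).constr ℕ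
    rw [← Equiv.sum_comp ((Pi.basisFun R (Fin n)).constr ℕ (M' := G)).toEquiv]
    refine Finset.sum_congr rfl fun g _ => ?_
    congr 1
    apply propext
    rw [← span_top_iff (m := p ^ (M + 1)), ← LinearMap.range_eq_top]
    rw [← Module.Basis.constr_range (Pi.basisFun R (Fin n)) ℕ (f := g)]
    rfl
  rw [hconv] at hsum
  unfold hG av
  rw [Fintype.card_fun, Fintype.card_fun (α := Fin n) (β := G), Fintype.card_fin]
  rw [← Nat.card_eq_fintype_card, ← Nat.card_eq_fintype_card]
  push_cast
  have h5 : (Nat.card G : ℝ) ≠ 0 := by exact_mod_cast Nat.card_pos.ne'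
  have h6 : (Nat.card (Fin n → ZMod (p ^ (M + 1))) : ℝ) ≠ 0 := by
    exact_mod_cast Nat.card_pos.ne'
  rw [div_mul_eq_mul_div, div_mul_eq_mul_div, div_eq_div_iff (pow_ne_zero _ h6)
    (pow_ne_zero _ h5)]
  change (∑ z : Fin n → Fin n → R,
      ind (Nonempty (((Fin n → R) ⧸ Submodule.span R (Set.range z)) ≃+ G))) *
        (Nat.card (AddAut G) : ℝ) * _ = _
  rw [hsum, div_pow]
  have h7 : (Nat.card (Fin n → R) : ℝ) = (Nat.card (Fin n → ZMod (p ^ (M + 1))) : ℝ) := rfl
  rw [h7]
  field_simp

theorem hG_formula (n : ℕ) (G : Type) [AddCommGroup G] [Fintype G]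
    (hG' : ∀ g : G, p ^ M • g = 0) :
    hG p M n G * (Nat.card (AddAut G) : ℝ) =
      av (fun g : Fin n → G => ind (AddSubgroup.closure (Set.range g) = ⊤)) * Cq p n := by
  let _ : Module (ZMod (p ^ (M + 1))) G := AddCommGroup.zmodModule (fun g => by
    rw [pow_succ, mul_comm, mul_nsmul', hG', nsmul_zero])
  exact hG_formula' p M n G hG'

end

/-- Generation probability of a finite abelian group by many elements. -/
theorem gen_tendsto (G : Type) [AddCommGroup G] [Fintype G] :
    Filter.Tendsto (fun n => av (fun g : Fin n → G => ind (AddSubgroup.closure (Set.range g) = ⊤)))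
      Filter.atTop (nhds 1) := by
  classical
  let _ : Fintype (AddSubgroup G) := Fintype.ofFinite _
  have hup : ∀ n, av (fun g : Fin n → G => ind (AddSubgroup.closure (Set.range g) = ⊤)) ≤ 1 := by
    intro n
    refine (av_mono _ (fun _ => 1) fun _ => ind_le_one _).trans ?_
    exact (av_const _).le
  have hlo : ∀ n, 1 - (Fintype.card (AddSubgroup G) : ℝ) * (1 / 2) ^ n ≤
      av (fun g : Fin n → G => ind (AddSubgroup.closure (Set.range g) = ⊤)) := by
    intro n
    have h1 : ∀ g : Fin n → G, 1 - ∑ H ∈ Finset.univ.filter (fun H : AddSubgroup G => H ≠ ⊤),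
        ∏ j, ind (g j ∈ H) ≤ ind (AddSubgroup.closure (Set.range g) = ⊤) := by
      intro g
      by_cases h : AddSubgroup.closure (Set.range g) = ⊤
      · rw [ind_true h]
        have : 0 ≤ ∑ H ∈ Finset.univ.filter (fun H : AddSubgroup G => H ≠ ⊤),
          ∏ j, ind (g j ∈ H) :=
          Finset.sum_nonneg fun H _ => Finset.prod_nonneg fun j _ => ind_nonneg _
        linarith
      · rw [ind_false h]
        have h2 : (1 : ℝ) ≤ ∑ H ∈ Finset.univ.filter (fun H : AddSubgroup G => H ≠ ⊤),
            ∏ j, ind (g j ∈ H) := by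
          have h3 := Finset.single_le_sum (f := fun H : AddSubgroup G => ∏ j, ind (g j ∈ H))
            (fun H _ => Finset.prod_nonneg fun j _ => ind_nonneg _)
            (show AddSubgroup.closure (Set.range g) ∈
              Finset.univ.filter (fun H : AddSubgroup G => H ≠ ⊤) from
              Finset.mem_filter.2 ⟨Finset.mem_univ _, h⟩)
          refine le_trans (le_of_eq ?_) h3
          rw [Finset.prod_eq_one]
          intro j _
          exact ind_true (AddSubgroup.subset_closure ⟨j, rfl⟩)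
        linarith
    refine le_trans ?_ (av_mono _ _ h1)
    rw [av_sub, av_const, av_sum]
    have h4 : ∀ H ∈ Finset.univ.filter (fun H : AddSubgroup G => H ≠ ⊤),
        av (fun g : Fin n → G => ∏ j, ind (g j ∈ H)) ≤ (1 / 2 : ℝ) ^ n := by
      intro H hH
      rw [av_pi (fun _ x => ind (x ∈ H)), Finset.prod_const, Finset.card_univ, Fintype.card_fin]
      refine pow_le_pow_left₀ (av_nonneg _ fun _ => ind_nonneg _) ?_ n
      unfold av
      rw [sum_ind]
      have h5 : Nat.card {x : G // x ∈ H} * H.index = Nat.card G := AddSubgroup.card_mul_index H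
      have h6 : 2 ≤ H.index := by
        have h7 : H.index ≠ 0 := AddSubgroup.index_ne_zero_of_finite
        have h8 : H.index ≠ 1 := fun h => (Finset.mem_filter.1 hH).2 (AddSubgroup.index_eq_one.1 h)
        omega
      have h9 : (Nat.card {x : G // x ∈ H} : ℝ) * H.index = Fintype.card G := by
        rw [← Nat.card_eq_fintype_card]
        exact_mod_cast h5
      have h10 : (2 : ℝ) ≤ H.index := by exact_mod_cast h6
      have h11 : (0 : ℝ) < Fintype.card G := by exact_mod_cast Fintype.card_pos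
      rw [div_le_iff₀ h11, ← h9]
      have h12 : (0 : ℝ) ≤ Nat.card {x : G // x ∈ H} := Nat.cast_nonneg _
      nlinarith
    have h13 : ∑ H ∈ Finset.univ.filter (fun H : AddSubgroup G => H ≠ ⊤),
        av (fun g : Fin n → G => ∏ j, ind (g j ∈ H)) ≤
        (Fintype.card (AddSubgroup G) : ℝ) * (1 / 2) ^ n := by
      refine (Finset.sum_le_card_nsmul _ _ _ h4).trans ?_
      rw [nsmul_eq_mul]
      refine mul_le_mul_of_nonneg_right ?_ (by positivity)
      exact_mod_cast Finset.card_le_univ _
    linarith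
  have hlim : Filter.Tendsto (fun n : ℕ => 1 - (Fintype.card (AddSubgroup G) : ℝ) * (1 / 2) ^ n)
      Filter.atTop (nhds 1) := by
    have h1 : Filter.Tendsto (fun n : ℕ => ((1 : ℝ) / 2) ^ n) Filter.atTop (nhds 0) :=
      tendsto_pow_atTop_nhds_zero_of_lt_one (by norm_num) (by norm_num)
    have h2 := (h1.const_mul (Fintype.card (AddSubgroup G) : ℝ)).const_sub 1
    simpa using h2
  exact tendsto_of_tendsto_of_tendsto_of_le_of_le hlim tendsto_const_nhds hlo hup

end Pool.Agent.Q214.CL
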