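import Pool.Agent.Q214.CL.FW

set_option autoImplicit false

namespace Pool.Agent.Q214.CL

open Pool.Agent.Q214.MP59a MeasureTheory

/-- Borel sets of the `p`-adic integers. -/
noncomputable instance instMeasZ (p : ℕ) [Fact p.Prime] : MeasurableSpace ℤ_[p] := borel ℤ_[p]

instance instBorelZ (p : ℕ) [Fact p.Prime] : BorelSpace ℤ_[p] := ⟨rfl⟩

/-- The Haar probability measure of the `p`-adic integers. -/
noncomputable def haarZ (p : ℕ) [Fact p.Prime] : Measure ℤ_[p] :=
  Measure.addHaarMeasure (⊤ : TopologicalSpace.PositiveCompacts ℤ_[p])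

section

variable (p : ℕ) [hp : Fact p.Prime]

instance : (haarZ p).IsAddHaarMeasure := by unfold haarZ; infer_instance

instance : IsProbabilityMeasure (haarZ p) :=
  ⟨Measure.addHaarMeasure_self (K₀ := (⊤ : TopologicalSpace.PositiveCompacts ℤ_[p]))⟩

variable {p}

theorem fibre_eq {S : Type} [AddCommGroup S] (f : ℤ_[p] →+ S) (x0 : ℤ_[p]) :
    f ⁻¹' {f x0} = (fun x => -x0 + x) ⁻¹' (f ⁻¹' {0}) := by
  ext x
  simp only [Set.mem_preimage, Set.mem_singleton_iff, map_add, map_neg]
  rw [neg_add_eq_zero, eq_comm]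

theorem fibre_meas {S : Type} [AddCommGroup S] (f : ℤ_[p] →+ S) (hf : Function.Surjective f)
    (h0 : MeasurableSet (f ⁻¹' {0})) (a : S) : MeasurableSet (f ⁻¹' {a}) := by
  obtain ⟨x0, rfl⟩ := hf a
  rw [fibre_eq]
  exact (continuous_const.add continuous_id).measurable h0

theorem fibre_const {S : Type} [AddCommGroup S] (f : ℤ_[p] →+ S) (hf : Function.Surjective f)
    (a : S) : haarZ p (f ⁻¹' {a}) = haarZ p (f ⁻¹' {0}) := by
  obtain ⟨x0, rfl⟩ := hf a
  rw [fibre_eq, measure_preimage_add]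

theorem fibre_val {S : Type} [AddCommGroup S] [Fintype S] (f : ℤ_[p] →+ S)
    (hf : Function.Surjective f) (h0 : MeasurableSet (f ⁻¹' {0})) (a : S) :
    haarZ p (f ⁻¹' {a}) = (Fintype.card S : ENNReal)⁻¹ := by
  classical
  rw [fibre_const f hf a]
  have h1 : haarZ p Set.univ = ∑ b : S, haarZ p (f ⁻¹' {b}) := by
    have h2 : (Set.univ : Set ℤ_[p]) = ⋃ b : S, f ⁻¹' {b} := by
      ext x; simp
    rw [h2, measure_iUnion ?_ fun b => fibre_meas f hf h0 b, tsum_fintype]
    intro b c hbc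
    refine Set.disjoint_left.2 fun x hx hx' => hbc ?_
    rw [← (show f x = b from hx), ← (show f x = c from hx')]
  rw [measure_univ] at h1
  simp only [fibre_const f hf] at h1
  rw [Finset.sum_const, Finset.card_univ, nsmul_eq_mul] at h1
  have hc : (Fintype.card S : ENNReal) ≠ 0 := by exact_mod_cast Fintype.card_ne_zero
  have hc' : (Fintype.card S : ENNReal) ≠ ⊤ := ENNReal.natCast_ne_top _
  exact ENNReal.eq_inv_of_mul_eq_one_left (by rw [mul_comm]; exact h1.symm)

/-- Haar matrices reduce to uniform matrices. -/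
theorem haar_av {ι S : Type} [Fintype ι] [DecidableEq ι] [AddCommGroup S] [Fintype S] (f : ℤ_[p] →+ S)
    (hf : Function.Surjective f) (h0 : MeasurableSet (f ⁻¹' {0})) (B : (ι → S) → Prop) :
    (Measure.pi fun _ : ι => haarZ p).real {ω | B fun q => f (ω q)} = av (fun a => ind (B a)) := by
  classical
  let Sa : (ι → S) → Set (ι → ℤ_[p]) := fun a => Set.pi Set.univ fun q => f ⁻¹' {a q}
  have hm : ∀ a, MeasurableSet (Sa a) := fun a =>
    MeasurableSet.univ_pi fun q => fibre_meas f hf h0 (a q)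
  have hv : ∀ a, (Measure.pi fun _ : ι => haarZ p) (Sa a) =
      ((Fintype.card S : ENNReal)⁻¹) ^ Fintype.card ι := by
    intro a
    change (Measure.pi fun _ : ι => haarZ p) (Set.pi Set.univ fun q => f ⁻¹' {a q}) = _
    rw [Measure.pi_pi]
    simp only [fibre_val f hf h0]
    rw [Finset.prod_const, Finset.card_univ]
  have hset : {ω : ι → ℤ_[p] | B fun q => f (ω q)} =
      ⋃ a ∈ Finset.univ.filter (fun a => B a), Sa a := by
    ext ω
    simp only [Set.mem_ofPred_eq, Set.mem_iUnion, Finset.mem_filter, Finset.mem_univ, true_and,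
      exists_prop]
    constructor
    · intro h
      exact ⟨_, h, fun q _ => rfl⟩
    · rintro ⟨a, ha, hω⟩
      have : (fun q => f (ω q)) = a := funext fun q => hω q trivial
      rw [this]; exact ha
  rw [measureReal_def, hset, measure_biUnion_finset ?_ fun a _ => hm a]
  · simp only [hv]
    rw [Finset.sum_const, nsmul_eq_mul, ENNReal.toReal_mul, ENNReal.toReal_pow,
      ENNReal.toReal_inv]
    simp only [ENNReal.toReal_natCast]
    unfold av
    rw [sum_ind, Nat.card_eq_fintype_card, Fintype.card_subtype, Fintype.card_fun]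
    push_cast
    rw [inv_pow, div_eq_mul_inv]
  · intro a _ b _ hab
    refine Set.disjoint_left.2 fun ω hω hω' => hab ?_
    funext q
    rw [← (show f (ω q) = a q from hω q trivial), ← (show f (ω q) = b q from hω' q trivial)]

theorem meas_ker_pow (N : ℕ) :
    MeasurableSet ((PadicInt.toZModPow N : ℤ_[p] →+* ZMod (p ^ N)).toAddMonoidHom ⁻¹' {0}) := by
  have : (PadicInt.toZModPow N : ℤ_[p] →+* ZMod (p ^ N)).toAddMonoidHom ⁻¹' {0} =
      Metric.closedBall (0 : ℤ_[p]) ((p : ℝ) ^ (-(N : ℤ))) := by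
    ext x
    rw [mem_closedBall_zero_iff, PadicInt.norm_le_pow_iff_mem_span_pow,
      ← PadicInt.ker_toZModPow, RingHom.mem_ker]
    rfl
  rw [this]
  exact Metric.isClosed_closedBall.measurableSet

theorem meas_ker_one :
    MeasurableSet ((PadicInt.toZMod : ℤ_[p] →+* ZMod p).toAddMonoidHom ⁻¹' {0}) := by
  have : (PadicInt.toZMod : ℤ_[p] →+* ZMod p).toAddMonoidHom ⁻¹' {0} =
      Metric.ball (0 : ℤ_[p]) 1 := by
    ext x
    rw [mem_ball_zero_iff, ← PadicInt.mem_nonunits, ← IsLocalRing.mem_maximalIdeal,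
      ← PadicInt.ker_toZMod, RingHom.mem_ker]
    rfl
  rw [this]
  exact Metric.isOpen_ball.measurableSet

/-- Coordinatewise reduction mod `p^(M+1)`. -/
noncomputable def rL (M n : ℕ) : (Fin n → ℤ_[p]) →ₛₗ[(PadicInt.toZModPow (M + 1) : ℤ_[p] →+* _)]
    (Fin n → ZMod (p ^ (M + 1))) where
  toFun x i := PadicInt.toZModPow (M + 1) (x i)
  map_add' x y := by funext i; simp
  map_smul' c x := by funext i; simp

theorem rL_apply (M n : ℕ) (x : Fin n → ℤ_[p]) (i : Fin n) :
    rL M n x i = PadicInt.toZModPow (M + 1) (x i) := rfl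

theorem rL_surj (M n : ℕ) : Function.Surjective (rL (p := p) M n) := by
  intro x
  choose y hy using fun i => ZMod.ringHom_surjective
    (PadicInt.toZModPow (M + 1) : ℤ_[p] →+* ZMod (p ^ (M + 1))) (x i)
  exact ⟨y, funext hy⟩

theorem rL_ker (M n : ℕ) {x : Fin n → ℤ_[p]} (hx : rL M n x = 0) :
    ∃ y : Fin n → ℤ_[p], x = (p : ℤ_[p]) ^ (M + 1) • y := by
  have : ∀ i, ∃ y, x i = (p : ℤ_[p]) ^ (M + 1) * y := by
    intro i
    have h1 : x i ∈ RingHom.ker (PadicInt.toZModPow (M + 1) : ℤ_[p] →+* ZMod (p ^ (M + 1))) :=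
      (RingHom.mem_ker).2 (congrFun hx i)
    rw [PadicInt.ker_toZModPow, Ideal.mem_span_singleton] at h1
    exact h1
  choose y hy using this
  exact ⟨y, funext hy⟩

instance instRHS (M : ℕ) :
    RingHomSurjective (PadicInt.toZModPow (M + 1) : ℤ_[p] →+* ZMod (p ^ (M + 1))) :=
  ⟨ZMod.ringHom_surjective _⟩

/-- The cokernel is determined by the reduction mod `p^(M+1)` when it is killed by `p^M`. -/
theorem cok_red (M n : ℕ) (T : Submodule ℤ_[p] (Fin n → ℤ_[p])) (G : Type) [AddCommGroup G]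
    (hG : ∀ g : G, p ^ M • g = 0) :
    Nonempty (((Fin n → ℤ_[p]) ⧸ T) ≃+ G) ↔
      Nonempty (((Fin n → ZMod (p ^ (M + 1))) ⧸ T.map (rL M n)) ≃+ G) := by
  -- it suffices that the kernel of the reduction is contained in `T`
  have key : (∀ x, rL M n x = 0 → x ∈ T) →
      Nonempty (((Fin n → ℤ_[p]) ⧸ T) ≃+ ((Fin n → ZMod (p ^ (M + 1))) ⧸ T.map (rL M n))) := by
    intro hk
    let F := Submodule.mapQ T (T.map (rL M n)) (rL M n) (Submodule.le_comap_map _ _)
    have hF : Function.Bijective F := by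
      constructor
      · rw [injective_iff_map_eq_zero]
        intro a ha
        obtain ⟨x, rfl⟩ := Submodule.mkQ_surjective T a
        have h1 : (T.map (rL M n)).mkQ (rL M n x) = 0 := ha
        rw [Submodule.mkQ_apply, Submodule.Quotient.mk_eq_zero] at h1
        obtain ⟨t, ht, htx⟩ := Submodule.mem_map.1 h1
        rw [Submodule.mkQ_apply, Submodule.Quotient.mk_eq_zero]
        have h2 : x - t ∈ T := hk _ (by rw [map_sub, htx, sub_self])
        have := T.add_mem h2 ht
        rwa [sub_add_cancel] at this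
      · intro b
        obtain ⟨y, rfl⟩ := Submodule.mkQ_surjective _ b
        obtain ⟨x, rfl⟩ := rL_surj M n y
        exact ⟨T.mkQ x, rfl⟩
    exact ⟨AddEquiv.ofBijective F.toAddMonoidHom hF⟩
  constructor
  · rintro ⟨e⟩
    have hk : ∀ x, rL M n x = 0 → x ∈ T := by
      intro x hx
      obtain ⟨y, rfl⟩ := rL_ker M n hx
      have h1 : p ^ M • T.mkQ y = 0 := by
        apply e.injective
        rw [map_nsmul, hG, map_zero]
      rw [← map_nsmul, Submodule.mkQ_apply, Submodule.Quotient.mk_eq_zero] at h1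
      have h2 : (p : ℤ_[p]) ^ (M + 1) • y = (p : ℤ_[p]) • (p ^ M • y) := by
        rw [pow_succ', mul_smul]
        congr 1
        rw [← Nat.cast_smul_eq_nsmul ℤ_[p] (p ^ M) y]
        push_cast
        rfl
      rw [h2]
      exact T.smul_mem _ h1
    obtain ⟨e'⟩ := key hk
    exact ⟨e'.symm.trans e⟩
  · rintro ⟨e⟩
    have h1 : ∀ y : Fin n → ℤ_[p], (p : ℤ_[p]) ^ M • y ∈ T := by
      let N : Submodule ℤ_[p] (Fin n → ℤ_[p]) :=
        LinearMap.range (LinearMap.lsmul ℤ_[p] (Fin n → ℤ_[p]) ((p : ℤ_[p]) ^ M))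
      have hN : N ≤ T := by
        refine Submodule.le_of_le_smul_of_le_jacobson_bot (I := IsLocalRing.maximalIdeal ℤ_[p])
          (IsNoetherian.noetherian N) ?_ ?_
        · exact (IsLocalRing.jacobson_eq_maximalIdeal ⊥ bot_ne_top).ge
        · rintro _ ⟨y, rfl⟩
          have h2 : p ^ M • (T.map (rL M n)).mkQ (rL M n y) = 0 := by
            apply e.injective
            rw [map_nsmul, hG, map_zero]
          rw [← map_nsmul, Submodule.mkQ_apply, Submodule.Quotient.mk_eq_zero, ← map_nsmul] at h2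
          obtain ⟨t, ht, htx⟩ := Submodule.mem_map.1 h2
          obtain ⟨w, hw⟩ := rL_ker M n (x := p ^ M • y - t) (by rw [map_sub, htx, sub_self])
          have h3 : LinearMap.lsmul ℤ_[p] (Fin n → ℤ_[p]) ((p : ℤ_[p]) ^ M) y =
              t + (p : ℤ_[p]) • ((p : ℤ_[p]) ^ M • w) := by
            rw [← mul_smul, ← pow_succ', ← hw, LinearMap.lsmul_apply,
              ← Nat.cast_smul_eq_nsmul ℤ_[p] (p ^ M) y]
            push_cast
            abel
          rw [h3]
          refine Submodule.add_mem_sup ht (Submodule.smul_mem_smul ?_ ⟨w, rfl⟩)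
          rw [PadicInt.maximalIdeal_eq_span_p]
          exact Ideal.mem_span_singleton_self _
      intro y
      exact hN ⟨y, rfl⟩
    have hk : ∀ x, rL M n x = 0 → x ∈ T := by
      intro x hx
      obtain ⟨y, rfl⟩ := rL_ker M n hx
      rw [pow_succ', mul_smul]
      exact T.smul_mem _ (h1 y)
    obtain ⟨e'⟩ := key hk
    exact ⟨e'.trans e⟩

end

end Pool.Agent.Q214.CL
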