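import Pool.Agent.Q214.MP59a.Count

set_option autoImplicit false

namespace Pool.Agent.Q214.CL

open Pool.Agent.Q214.MP59a

/-- Surjective homomorphisms of finite groups preserve the uniform law. -/
theorem unif_hom {A B : Type} [AddCommGroup A] [AddCommGroup B] [Fintype A] [Fintype B]
    (f : A →+ B) (hf : Function.Surjective f) : Unif (fun a => f a) := by
  intro H
  have h1 : ∀ b : B, av (fun a => H (f a)) = av (fun a => H (f a + b)) := by
    intro b
    obtain ⟨a0, ha0⟩ := hf b
    have := unif_equiv (Equiv.addRight a0) (fun a => H (f a))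
    rw [← this]
    congr 1
    funext a
    simp [ha0]
  have h2 : av (fun a => H (f a)) = av (fun b : B => av (fun a : A => H (f a + b))) := by
    have : (fun b : B => av (fun a : A => H (f a + b))) = fun _ => av (fun a => H (f a)) := by
      funext b; exact (h1 b).symm
    rw [this, av_const]
  have h3 : av (fun b : B => av (fun a : A => H (f a + b))) =
      av (fun a : A => av (fun b : B => H (f a + b))) := by
    unfold av
    rw [← Finset.sum_div, ← Finset.sum_div, Finset.sum_comm, div_div, div_div, mul_comm]
  have h4 : ∀ a : A, av (fun b : B => H (f a + b)) = av H := fun a =>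
    unif_equiv (Equiv.addLeft (f a)) H
  rw [h2, h3]
  simp only [h4]
  exact av_const _

theorem unif_pi {K Ω Ω' : Type} [Fintype K] [DecidableEq K] [Fintype Ω] [Fintype Ω']
    (π : K → Ω → Ω') (h : ∀ k, Unif (π k)) : Unif (fun (ω : K → Ω) k => π k (ω k)) := by
  classical
  intro H
  have hexp : ∀ x : K → Ω', H x = ∑ a : K → Ω', H a * ∏ k, ind (x k = a k) := by
    intro x
    rw [Finset.sum_eq_single x]
    · simp [ind]
    · intro a _ ha
      have : ∃ k, x k ≠ a k := by
        by_contra hcon
        push Not at hcon
        exact ha (funext fun k => (hcon k).symm)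
      obtain ⟨k, hk⟩ := this
      rw [Finset.prod_eq_zero (Finset.mem_univ k) (ind_false hk), mul_zero]
    · intro hx; exact absurd (Finset.mem_univ _) hx
  have e1 : av (fun ω : K → Ω => H fun k => π k (ω k)) =
      ∑ a : K → Ω', H a * ∏ k, av (fun ω => ind (π k ω = a k)) := by
    have : (fun ω : K → Ω => H fun k => π k (ω k)) =
        fun ω => ∑ a : K → Ω', H a * ∏ k, ind (π k (ω k) = a k) := by
      funext ω; exact hexp _
    rw [this, av_sum]
    refine Finset.sum_congr rfl fun a _ => ?_
    rw [av_mul_left, av_pi (fun k ω => ind (π k ω = a k))]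
  have e2 : av H = ∑ a : K → Ω', H a * ∏ k, av (fun x => ind (x = a k)) := by
    have : H = fun x => ∑ a : K → Ω', H a * ∏ k, ind (x k = a k) := by
      funext x; exact hexp _
    conv_lhs => rw [this]
    rw [av_sum]
    refine Finset.sum_congr rfl fun a _ => ?_
    rw [av_mul_left, av_pi (fun k x => ind (x = a k))]
  rw [e1, e2]
  refine Finset.sum_congr rfl fun a _ => ?_
  congr 1
  refine Finset.prod_congr rfl fun k _ => ?_
  exact h k (fun x => ind (x = a k))

theorem av_ind_compl {Ω : Type} [Fintype Ω] [Nonempty Ω] (p : Ω → Prop) :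
    av (fun ω => ind (¬ p ω)) = 1 - av (fun ω => ind (p ω)) := by
  rw [← av_const (Ω := Ω) (1 : ℝ), ← av_sub]
  congr 1
  funext ω
  by_cases h : p ω
  · rw [ind_true h, ind_false (not_not.2 h)]; simp [av_const]
  · rw [ind_false h, ind_true h]; simp [av_const]

theorem av_ker {U V : Type} [AddCommGroup U] [AddCommGroup V] [Fintype U] [Fintype V]
    (h : U →+ V) : (Fintype.card V : ℝ)⁻¹ ≤ av (fun u => ind (h u = 0)) := by
  have h1 : ∀ v : V, av (fun u => ind (h u = v)) ≤ av (fun u => ind (h u = 0)) := by
    intro v
    by_cases hv : ∃ u0, h u0 = v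
    · obtain ⟨u0, hu0⟩ := hv
      have := unif_equiv (Equiv.addRight u0) (fun u => ind (h u = v))
      rw [← this]
      refine av_mono _ _ fun u => ?_
      have : (h (Equiv.addRight u0 u) = v) ↔ h u = 0 := by
        simp [hu0]
      rw [propext this]
    · have : (fun u => ind (h u = v)) = fun _ => 0 := by
        funext u; exact ind_false fun h' => hv ⟨u, h'⟩
      rw [this]
      have h0 : av (fun _ : U => (0 : ℝ)) = 0 := by unfold av; simp
      rw [h0]
      exact av_nonneg _ fun _ => ind_nonneg _
  have h2 : ∑ v : V, av (fun u => ind (h u = v)) = 1 := by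
    rw [← av_sum]
    have : (fun u => ∑ v : V, ind (h u = v)) = fun _ : U => (1 : ℝ) := by
      classical
      funext u
      simp [ind]
    rw [this, av_const]
  have h3 := Finset.sum_le_sum fun v (_ : v ∈ (Finset.univ : Finset V)) => h1 v
  rw [h2, Finset.sum_const, Finset.card_univ, nsmul_eq_mul] at h3
  have hV : (0 : ℝ) < Fintype.card V := by exact_mod_cast Fintype.card_pos
  rw [inv_eq_one_div, div_le_iff₀ hV]
  linarith

section

variable {K U W : Type} [Field K] [Fintype K] [AddCommGroup U] [AddCommGroup W]
  [Module K U] [Module K W] [Fintype U] [Fintype W]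

/-- One step. -/
theorem step_le (S : Submodule K W) (g : U →ₗ[K] W) :
    av (fun u => ind (g u ∉ S)) ≤
      1 - ((Fintype.card K : ℝ) ^ (Module.finrank K W - Module.finrank K S))⁻¹ := by
  classical
  have : Module.Finite K W := Module.Finite.of_finite
  rw [av_ind_compl]
  have h1 := av_ker ((S.mkQ.comp g).toAddMonoidHom)
  have h2 : (fun u => ind ((S.mkQ.comp g).toAddMonoidHom u = 0)) = fun u => ind (g u ∈ S) := by
    funext u
    congr 1
    simp
  rw [h2] at h1
  have h3 : (Fintype.card (W ⧸ S) : ℝ) =
      (Fintype.card K : ℝ) ^ (Module.finrank K W - Module.finrank K S) := by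
    rw [Module.card_eq_pow_finrank (K := K) (V := W ⧸ S), ← Submodule.finrank_quotient]
    push_cast
    rfl
  rw [h3] at h1
  linarith

/-- Probability bound for linear independence. -/
theorem indep_le (k : ℕ) (hk : k ≤ Module.finrank K W) (f : Fin k → U →ₗ[K] W) :
    av (fun u : Fin k → U => ind (LinearIndependent K fun j => f j (u j))) ≤
      ∏ t ∈ Finset.range k, (1 - ((Fintype.card K : ℝ) ^ (Module.finrank K W - t))⁻¹) := by
  induction k with
  | zero =>
    simp only [Finset.range_zero, Finset.prod_empty]
    refine (av_mono _ (fun _ => 1) fun _ => ind_le_one _).trans ?_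
    exact (av_const _).le
  | succ k ih =>
    have ih' := ih (by omega) (fun j => f j.castSucc)
    rw [Finset.prod_range_succ]
    have hq1 : (1 : ℝ) ≤ Fintype.card K := by exact_mod_cast Fintype.card_pos
    have hc0 : 0 ≤ 1 - ((Fintype.card K : ℝ) ^ (Module.finrank K W - k))⁻¹ := by
      have := inv_le_one_of_one_le₀ (one_le_pow₀ hq1 (n := Module.finrank K W - k))
      linarith
    have he := unif_equiv (Fin.snocEquiv (fun _ : Fin (k + 1) => U))
      (fun u => ind (LinearIndependent K fun j => f j (u j)))
    rw [← he]
    have h2 : ∀ p : U × (Fin k → U), ind (LinearIndependent K fun j =>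
        f j ((Fin.snocEquiv (fun _ : Fin (k + 1) => U)) p j)) =
        ind (LinearIndependent K fun j : Fin k => f j.castSucc (p.2 j)) *
          ind (f (Fin.last k) p.1 ∉ Submodule.span K (Set.range fun j : Fin k =>
            f j.castSucc (p.2 j))) := by
      intro p
      rw [← ind_and, ← linearIndependent_finSnoc]
      congr 2
      funext j
      refine Fin.lastCases ?_ (fun i => ?_) j
      · simp [Fin.snocEquiv]
      · simp [Fin.snocEquiv]
    simp only [h2]
    have h3 : av (fun p : U × (Fin k → U) =>
        ind (LinearIndependent K fun j : Fin k => f j.castSucc (p.2 j)) *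
          ind (f (Fin.last k) p.1 ∉ Submodule.span K (Set.range fun j : Fin k =>
            f j.castSucc (p.2 j)))) =
        av (fun v : Fin k → U => av (fun u : U =>
          ind (LinearIndependent K fun j : Fin k => f j.castSucc (v j)) *
          ind (f (Fin.last k) u ∉ Submodule.span K (Set.range fun j : Fin k =>
            f j.castSucc (v j))))) := by
      rw [← av_prod_iter]
      exact (unif_equiv (Equiv.prodComm U (Fin k → U)) (fun p =>
        ind (LinearIndependent K fun j : Fin k => f j.castSucc (p.1 j)) *
          ind (f (Fin.last k) p.2 ∉ Submodule.span K (Set.range fun j : Fin k =>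
            f j.castSucc (p.1 j))))).symm ▸ rfl
    rw [h3]
    have h4 : ∀ v : Fin k → U, av (fun u : U =>
          ind (LinearIndependent K fun j : Fin k => f j.castSucc (v j)) *
          ind (f (Fin.last k) u ∉ Submodule.span K (Set.range fun j : Fin k =>
            f j.castSucc (v j)))) ≤
        (1 - ((Fintype.card K : ℝ) ^ (Module.finrank K W - k))⁻¹) *
          ind (LinearIndependent K fun j : Fin k => f j.castSucc (v j)) := by
      intro v
      rw [av_mul_left, mul_comm]
      by_cases hli : LinearIndependent K fun j : Fin k => f j.castSucc (v j)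
      · rw [ind_true hli, mul_one, mul_one]
        have h5 := step_le (Submodule.span K (Set.range fun j : Fin k => f j.castSucc (v j)))
          (f (Fin.last k))
        have h6 : Module.finrank K (Submodule.span K (Set.range fun j : Fin k =>
            f j.castSucc (v j))) = k := by
          rw [finrank_span_eq_card hli]; simp
        rw [h6] at h5
        exact h5
      · rw [ind_false hli]; simp
    refine (av_mono _ _ h4).trans ?_
    rw [av_mul_left, mul_comm]
    exact mul_le_mul_of_nonneg_right ih' hc0

end

end Pool.Agent.Q214.CL
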