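import Pool.Agent.Q214.CL.Haar

set_option autoImplicit false

namespace Pool.Agent.Q214.CL

open Pool.Agent.Q214.MP59a Filter Topology

section

variable (p : ℕ) [hp : Fact p.Prime]

/-- Probability (uniform columns over `ZMod p`) that the masked columns are independent. -/
noncomputable def pD {n : ℕ} (σ : Fin n → Set (Fin n)) : ℝ :=
  av (fun u : Fin n → Fin n → ZMod p => ind (LinearIndependent (ZMod p) fun j =>
    mask (ZMod p) (σ j) (u j)))

/-- Probability (uniform columns over `ZMod (p^(M+1))`) that the cokernel is `G`. -/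
noncomputable def pG (M : ℕ) {n : ℕ} (σ : Fin n → Set (Fin n)) (G : Type) [AddCommGroup G] : ℝ :=
  av (fun u : Fin n → Fin n → ZMod (p ^ (M + 1)) => ind (Nonempty
    (((Fin n → ZMod (p ^ (M + 1))) ⧸ Submodule.span (ZMod (p ^ (M + 1)))
      (Set.range fun j => mask (ZMod (p ^ (M + 1))) (σ j) (u j))) ≃+ G)))

theorem q_gt : (1 : ℝ) < (p : ℝ) := by exact_mod_cast hp.1.one_lt

theorem main_bound (M k i : ℕ) (hi : 0 < i) (σ : Fin (k + i) → Set (Fin (k + i))) (G : Type)
    [AddCommGroup G] :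
    |pG p M σ G - hG p M i G| ≤
      1 - (pD p σ / Cq p i - (Cq p (k + i) - pD p σ) / gapq p i) := by
  classical
  let e : Fin k ⊕ Fin i ≃ Fin (k + i) := finSumFinEquiv
  -- the event of good first columns
  set pA : ℝ := av (fun v : Fin k → Fin (k + i) → ZMod p =>
        ind ((LinearIndependent (ZMod p) fun j => mask (ZMod p) (σ (e (Sum.inl j))) (v j)) ∧
            ∀ l, Submodule.span (ZMod p)
              (Set.range fun j => mask (ZMod p) (σ (e (Sum.inl j))) (v j)) ⊔
              LinearMap.range (mask (ZMod p) (σ (e (Sum.inr l)))) = ⊤)) with hpA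
  set pE : ℝ := av (fun v : Fin k → Fin (k + i) → ZMod p =>
        ind (LinearIndependent (ZMod p) fun j => mask (ZMod p) (σ (e (Sum.inl j))) (v j)))
    with hpE
  have h1 : pG p M σ G = av (fun u : Fin k ⊕ Fin i → Fin (k + i) → ZMod (p ^ (M + 1)) =>
        ind (Nonempty (((Fin (k + i) → ZMod (p ^ (M + 1))) ⧸
          Submodule.span (ZMod (p ^ (M + 1)))
            (Set.range fun j => mask _ (σ (e j)) (u j))) ≃+ G))) := by
    unfold pG
    rw [← av_reindex e]
    congr 1
    funext u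
    congr 1
    have : Set.range (fun j : Fin (k + i) => mask (ZMod (p ^ (M + 1))) (σ j) (u (e.symm j))) =
        Set.range (fun j => mask (ZMod (p ^ (M + 1))) (σ (e j)) (u j)) := by
      rw [← e.surjective.range_comp]
      congr 1
      funext j
      simp
    rw [this]
  have h2 : pD p σ = av (fun u : Fin k ⊕ Fin i → Fin (k + i) → ZMod p =>
      ind (LinearIndependent (ZMod p) fun j => mask (ZMod p) (σ (e j)) (u j))) := by
    unfold pD
    rw [← av_reindex e]
    congr 1
    funext u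
    congr 1
    rw [← linearIndependent_equiv e]
    refine propext (Iff.of_eq ?_)
    congr 1
    funext j
    simp
  have h3 := cok_compare p M (rfl : k + i = k + i) (fun j => σ (e j)) G
  rw [← h1, ← hpA] at h3
  have hfr : Module.finrank (ZMod p) (Fin (k + i) → ZMod p) = k + i := Module.finrank_fin_fun _
  have h4 := two_le (K := ZMod p) (U := Fin (k + i) → ZMod p) (W := Fin (k + i) → ZMod p)
    (ι := Fin k) (κ := Fin i) (by rw [hfr, Fintype.card_fin, Fintype.card_fin])
    (fun j => mask (ZMod p) (σ (e j)))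
  rw [← h2, ← hpE, ← hpA, ZMod.card, Fintype.card_fin] at h4
  have h5 := indep_le' (K := ZMod p) (U := Fin (k + i) → ZMod p) (W := Fin (k + i) → ZMod p)
    (ι := Fin k) (by rw [hfr, Fintype.card_fin]; omega)
    (fun j => mask (ZMod p) (σ (e (Sum.inl j))))
  rw [← hpE, ZMod.card, Fintype.card_fin, hfr] at h5
  have hC := Cq_pos (q_gt p) i
  have h6 : pE * Cq p i ≤ Cq p (k + i) := by
    refine (mul_le_mul_of_nonneg_right h5 hC.le).trans (le_of_eq ?_)
    exact prod_rev (p : ℝ) k i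
  have hη := gapq_pos (q_gt p) hi
  have h7 : pE - pA ≤ (Cq p (k + i) - pD p σ) / gapq p i := by
    rw [le_div_iff₀ hη]
    nlinarith
  have h8 : pD p σ / Cq p i ≤ pE := by
    rw [div_le_iff₀ hC]
    have h9 : 0 ≤ pE - pA := by
      rw [hpE, hpA, ← av_sub]
      refine av_nonneg _ fun v => ?_
      rw [ind_and]
      have := ind_nonneg (LinearIndependent (ZMod p) fun j =>
        mask (ZMod p) (σ (e (Sum.inl j))) (v j))
      have := ind_le_one (∀ l, Submodule.span (ZMod p)
              (Set.range fun j => mask (ZMod p) (σ (e (Sum.inl j))) (v j)) ⊔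
              LinearMap.range (mask (ZMod p) (σ (e (Sum.inr l)))) = ⊤)
      nlinarith
    nlinarith
  refine h3.trans ?_
  linarith

theorem main_bound' (M n i : ℕ) (hi : 0 < i) (hn : i ≤ n) (σ : Fin n → Set (Fin n)) (G : Type)
    [AddCommGroup G] :
    |pG p M σ G - hG p M i G| ≤ 1 - (pD p σ / Cq p i - (Cq p n - pD p σ) / gapq p i) := by
  obtain ⟨k, rfl⟩ := Nat.exists_eq_add_of_le' hn
  exact main_bound p M k i hi σ G

/-- The constant `∏_{i≥1} (1 - p^{-i})`. -/
noncomputable def cInf (p : ℕ) : ℝ := ∏' i : ℕ, (1 - ((p : ℝ) ^ (i + 1))⁻¹)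

theorem Cq_tendsto : Tendsto (fun n => Cq (p : ℝ) n) atTop (𝓝 (cInf p)) := by
  have hq := q_gt p
  have hs : Summable fun i : ℕ => -(((p : ℝ) ^ (i + 1))⁻¹) := by
    have h1 : Summable fun i : ℕ => ((p : ℝ)⁻¹) ^ i :=
      summable_geometric_of_lt_one (by positivity) (inv_lt_one_of_one_lt₀ hq)
    have h2 := (h1.mul_left (p : ℝ)⁻¹).neg
    refine h2.congr fun i => ?_
    rw [← pow_succ', inv_pow]
  have hm : Multipliable fun i : ℕ => (1 - ((p : ℝ) ^ (i + 1))⁻¹) := by
    have := Real.multipliable_one_add_of_summable hs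
    refine this.congr fun i => ?_
    ring
  exact hm.hasProd.tendsto_prod_nat

theorem Cq_lower {q : ℝ} (hq : 2 ≤ q) (n : ℕ) :
    1 / 4 * (1 + (1 / 2) ^ n) ≤ Cq q (n + 1) := by
  have hinv : ∀ m : ℕ, (q ^ m)⁻¹ ≤ (1 / 2) ^ m := by
    intro m
    rw [one_div, inv_pow]
    exact inv_anti₀ (by positivity) (pow_le_pow_left₀ (by norm_num) hq m)
  induction n with
  | zero =>
    rw [Cq_succ, Cq_zero]
    have := hinv 1
    norm_num at this ⊢
    linarith
  | succ n ih =>
    rw [Cq_succ]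
    have h1 := hinv (n + 1 + 1)
    have h2 : (0 : ℝ) < (1 / 2) ^ n := by positivity
    have h3 : ((1 : ℝ) / 2) ^ n ≤ 1 := pow_le_one₀ (by norm_num) (by norm_num)
    have h4 : ((1 : ℝ) / 2) ^ (n + 1) = (1 / 2) ^ n / 2 := by rw [pow_succ]; ring
    have h5 : ((1 : ℝ) / 2) ^ (n + 1 + 1) = (1 / 2) ^ n / 4 := by rw [pow_succ, h4]; ring
    rw [h5] at h1
    rw [h4]
    have h6 : 1 - (1 / 2) ^ n / 4 ≤ 1 - (q ^ (n + 1 + 1))⁻¹ := by linarith
    have h7 : (0 : ℝ) ≤ 1 - (1 / 2) ^ n / 4 := by linarith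
    have h8 := mul_le_mul ih h6 h7 ((by positivity : (0 : ℝ) ≤ 1 / 4 * (1 + (1 / 2) ^ n)).trans ih)
    nlinarith

theorem cInf_pos : 0 < cInf p := by
  have h1 : ∀ᶠ n in atTop, (1 / 4 : ℝ) ≤ Cq (p : ℝ) n := by
    refine eventually_atTop.2 ⟨1, fun n hn => ?_⟩
    obtain ⟨m, rfl⟩ := Nat.exists_eq_add_of_le' hn
    have := Cq_lower (q := (p : ℝ)) (by exact_mod_cast hp.1.two_le) m
    have h2 : (0 : ℝ) < (1 / 2) ^ m := by positivity
    linarith
  have := ge_of_tendsto (Cq_tendsto p) h1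
  linarith

theorem hG_tendsto (M : ℕ) (G : Type) [AddCommGroup G] [Finite G]
    (hG' : ∀ g : G, p ^ M • g = 0) :
    Tendsto (fun i => hG p M i G) atTop (𝓝 (1 / (Nat.card (AddAut G) : ℝ) * cInf p)) := by
  let _ : Fintype G := Fintype.ofFinite G
  have hfin : Finite (AddAut G) := by
    have : Finite (G ≃+ G) := inferInstance
    exact this
  have hA : (Nat.card (AddAut G) : ℝ) ≠ 0 := by
    exact_mod_cast Nat.card_pos.ne'
  have h1 : ∀ i, hG p M i G = 1 / (Nat.card (AddAut G) : ℝ) *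
      (av (fun g : Fin i → G => ind (AddSubgroup.closure (Set.range g) = ⊤)) * Cq p i) := by
    intro i
    rw [← hG_formula p M i G hG']
    field_simp
  simp only [h1]
  have h2 := ((gen_tendsto G).mul (Cq_tendsto p)).const_mul (1 / (Nat.card (AddAut G) : ℝ))
  rw [one_mul] at h2
  exact h2

/-- The limiting argument. -/
theorem limit (M : ℕ) (G : Type) [AddCommGroup G] [Finite G] (hG' : ∀ g : G, p ^ M • g = 0)
    (σ : (n : ℕ) → Fin n → Set (Fin n))
    (h : Tendsto (fun n => pD p (σ n)) atTop (𝓝 (cInf p))) :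
    Tendsto (fun n => pG p M (σ n) G) atTop (𝓝 (1 / (Nat.card (AddAut G) : ℝ) * cInf p)) := by
  set L := 1 / (Nat.card (AddAut G) : ℝ) * cInf p with hL
  have hc := cInf_pos p
  rw [Metric.tendsto_atTop]
  intro ε hε
  have h1 := Metric.tendsto_atTop.1 (hG_tendsto p M G hG') (ε / 2) (by positivity)
  obtain ⟨i1, hi1⟩ := h1
  have h2 : Tendsto (fun i => 1 - cInf p / Cq (p : ℝ) i) atTop (𝓝 0) := by
    have h3 := (tendsto_const_nhds (x := cInf p)).div (Cq_tendsto p) hc.ne'
    have h4 := h3.const_sub 1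
    rw [div_self hc.ne', sub_self] at h4
    exact h4
  have h3 : ∀ᶠ i in atTop, 1 - cInf p / Cq (p : ℝ) i < ε / 2 :=
    (tendsto_order.1 h2).2 _ (by positivity)
  obtain ⟨i2, hi2⟩ := eventually_atTop.1 h3
  let i := max (max i1 i2) 1
  have hi : 0 < i := lt_of_lt_of_le Nat.one_pos (le_max_right _ _)
  have hi1' : dist (hG p M i G) L < ε / 2 :=
    hi1 i ((le_max_left i1 i2).trans (le_max_left _ _))
  have hi2' : 1 - cInf p / Cq (p : ℝ) i < ε / 2 :=
    hi2 i ((le_max_right i1 i2).trans (le_max_left _ _))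
  have h4 : Tendsto (fun n => 1 - (pD p (σ n) / Cq p i -
      (Cq p n - pD p (σ n)) / gapq p i)) atTop (𝓝 (1 - cInf p / Cq (p : ℝ) i)) := by
    have h5 := h.div_const (Cq (p : ℝ) i)
    have h6 := ((Cq_tendsto p).sub h).div_const (gapq p i)
    rw [sub_self, zero_div] at h6
    have h7 := (h5.sub h6).const_sub 1
    rw [sub_zero] at h7
    exact h7
  have h5 : ∀ᶠ n in atTop, 1 - (pD p (σ n) / Cq p i -
      (Cq p n - pD p (σ n)) / gapq p i) < ε / 2 := (tendsto_order.1 h4).2 _ hi2'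
  obtain ⟨n0, hn0⟩ := eventually_atTop.1 h5
  refine ⟨max n0 i, fun n hn => ?_⟩
  have h6 := main_bound' p M n i hi ((le_max_right _ _).trans hn) (σ n) G
  have h7 := hn0 n ((le_max_left _ _).trans hn)
  rw [Real.dist_eq] at hi1' ⊢
  calc |pG p M (σ n) G - L| = |(pG p M (σ n) G - hG p M i G) + (hG p M i G - L)| := by
        congr 1; ring
    _ ≤ |pG p M (σ n) G - hG p M i G| + |hG p M i G - L| := abs_add_le _ _
    _ < ε := by linarith

end

end Pool.Agent.Q214.CL
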