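import Pool.Agent.Q214.CL.Indep

set_option autoImplicit false

namespace Pool.Agent.Q214.CL

open Pool.Agent.Q214.MP59a

theorem av_reindex {ι κ U : Type} [Fintype ι] [DecidableEq ι] [Fintype κ] [DecidableEq κ]
    [Fintype U] (e : ι ≃ κ) (H : (κ → U) → ℝ) :
    av (fun u : ι → U => H (fun k => u (e.symm k))) = av H :=
  unif_equiv (e.arrowCongr (Equiv.refl U)) H

section

variable {K U W : Type} [Field K] [Fintype K] [AddCommGroup U] [AddCommGroup W]
  [Module K U] [Module K W] [Fintype U] [Fintype W]

/-- `C_m = ∏_{l=1}^m (1 - q^{-l})`. -/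
noncomputable def Cq (q : ℝ) (m : ℕ) : ℝ := ∏ t ∈ Finset.range m, (1 - (q ^ (t + 1))⁻¹)

theorem Cq_succ (q : ℝ) (m : ℕ) : Cq q (m + 1) = Cq q m * (1 - (q ^ (m + 1))⁻¹) := by
  unfold Cq; rw [Finset.prod_range_succ]

theorem Cq_zero (q : ℝ) : Cq q 0 = 1 := by simp [Cq]

theorem factor_pos {q : ℝ} (hq : 1 < q) (t : ℕ) : 0 < 1 - (q ^ (t + 1))⁻¹ := by
  have : (q ^ (t + 1))⁻¹ < 1 := inv_lt_one_of_one_lt₀ (one_lt_pow₀ hq (Nat.succ_ne_zero t))
  linarith

theorem factor_le {q : ℝ} (hq : 1 < q) (t : ℕ) : 1 - (q ^ (t + 1))⁻¹ ≤ 1 := by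
  have : 0 < (q ^ (t + 1))⁻¹ := by positivity
  linarith

theorem Cq_pos {q : ℝ} (hq : 1 < q) (m : ℕ) : 0 < Cq q m :=
  Finset.prod_pos fun t _ => factor_pos hq t

theorem Cq_le_one {q : ℝ} (hq : 1 < q) (m : ℕ) : Cq q m ≤ 1 :=
  Finset.prod_le_one (fun t _ => (factor_pos hq t).le) fun t _ => factor_le hq t

/-- Reversal of the product. -/
theorem prod_rev (q : ℝ) (m i : ℕ) :
    (∏ t ∈ Finset.range m, (1 - (q ^ (m + i - t))⁻¹)) * Cq q i = Cq q (m + i) := by
  induction m with
  | zero => simp
  | succ m ih =>
    rw [Finset.prod_range_succ', Nat.sub_zero]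
    have : ∏ k ∈ Finset.range m, (1 - (q ^ (m + 1 + i - (k + 1)))⁻¹) =
        ∏ k ∈ Finset.range m, (1 - (q ^ (m + i - k))⁻¹) := by
      refine Finset.prod_congr rfl fun k _ => ?_
      congr 3
      omega
    rw [this, mul_right_comm, ih, show m + 1 + i = (m + i) + 1 by omega, Cq_succ]

/-- Probability bound for linear independence, arbitrary index type. -/
theorem indep_le' {ι : Type} [Fintype ι] [DecidableEq ι]
    (hk : Fintype.card ι ≤ Module.finrank K W) (f : ι → U →ₗ[K] W) :
    av (fun u : ι → U => ind (LinearIndependent K fun j => f j (u j))) ≤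
      ∏ t ∈ Finset.range (Fintype.card ι),
        (1 - ((Fintype.card K : ℝ) ^ (Module.finrank K W - t))⁻¹) := by
  have e := Fintype.equivFin ι
  rw [← av_reindex e.symm]
  refine le_trans (le_of_eq ?_) (indep_le _ hk (fun k => f (e.symm k)))
  congr 1
  funext u
  congr 1
  rw [← linearIndependent_equiv e.symm]
  refine propext (Iff.of_eq ?_)
  congr 1
  funext j
  simp

/-- Full-size version. -/
theorem indep_full {ι : Type} [Fintype ι] [DecidableEq ι]
    (hk : Fintype.card ι = Module.finrank K W) (f : ι → U →ₗ[K] W) :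
    av (fun u : ι → U => ind (LinearIndependent K fun j => f j (u j))) ≤
      Cq (Fintype.card K) (Fintype.card ι) := by
  refine (indep_le' hk.le f).trans (le_of_eq ?_)
  have := prod_rev (Fintype.card K : ℝ) (Fintype.card ι) 0
  rw [Cq_zero, mul_one, add_zero] at this
  rw [← this, ← hk]

omit [Fintype K] [Fintype W] in
theorem li_split {ι κ : Type} {x : ι ⊕ κ → W} (h : LinearIndependent K x) :
    LinearIndependent K (fun j => x (Sum.inl j)) ∧
      LinearIndependent K (fun j => (Submodule.span K
        (Set.range fun j => x (Sum.inl j))).mkQ (x (Sum.inr j))) := by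
  have h1 := linearIndependent_sum.1 h
  refine ⟨h1.1, ?_⟩
  have h2 := h1.2.1.map (f := (Submodule.span K (Set.range fun j => x (Sum.inl j))).mkQ)
    (by
      rw [Submodule.ker_mkQ]
      exact h1.2.2.symm)
  exact h2

omit [Fintype K] [Fintype W] in
/-- Conditioning on a block of columns. -/
theorem split_le {ι κ : Type} [Fintype ι] [DecidableEq ι] [Fintype κ] [DecidableEq κ]
    (f : ι ⊕ κ → U →ₗ[K] W) :
    av (fun u : ι ⊕ κ → U => ind (LinearIndependent K fun j => f j (u j))) ≤
      av (fun v : ι → U => ind (LinearIndependent K fun j => f (Sum.inl j) (v j)) *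
        av (fun w : κ → U => ind (LinearIndependent K fun j => ((Submodule.span K
          (Set.range fun j => f (Sum.inl j) (v j))).mkQ.comp (f (Sum.inr j))) (w j)))) := by
  have he := unif_equiv (Equiv.sumArrowEquivProdArrow ι κ U).symm
    (fun u => ind (LinearIndependent K fun j => f j (u j)))
  rw [← he]
  have h1 : ∀ v : ι → U, ind (LinearIndependent K fun j => f (Sum.inl j) (v j)) *
        av (fun w : κ → U => ind (LinearIndependent K fun j => ((Submodule.span K
          (Set.range fun j => f (Sum.inl j) (v j))).mkQ.comp (f (Sum.inr j))) (w j))) =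
      av (fun w : κ → U => ind (LinearIndependent K fun j => f (Sum.inl j) (v j)) *
        ind (LinearIndependent K fun j => ((Submodule.span K
          (Set.range fun j => f (Sum.inl j) (v j))).mkQ.comp (f (Sum.inr j))) (w j))) := by
    intro v
    rw [av_mul_left]
  simp only [h1]
  rw [← av_prod_iter]
  refine av_mono _ _ fun p => ?_
  rw [← ind_and]
  unfold ind
  have key : (LinearIndependent K fun j => f j
      ((Equiv.sumArrowEquivProdArrow ι κ U).symm p j)) →
      ((LinearIndependent K fun j => f (Sum.inl j) (p.1 j)) ∧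
        LinearIndependent K fun j => ((Submodule.span K
          (Set.range fun j => f (Sum.inl j) (p.1 j))).mkQ.comp (f (Sum.inr j))) (p.2 j)) := by
    intro h
    exact li_split h
  by_cases h : LinearIndependent K fun j => f j
      ((Equiv.sumArrowEquivProdArrow ι κ U).symm p j)
  · rw [if_pos h, if_pos (key h)]
  · rw [if_neg h]
    split_ifs <;> norm_num

/-- The gap. -/
noncomputable def gapq (q : ℝ) (d : ℕ) : ℝ := ((q ^ (d - 1))⁻¹ - (q ^ d)⁻¹) * Cq q (d - 1)

theorem gapq_pos {q : ℝ} (hq : 1 < q) {d : ℕ} (hd : 0 < d) : 0 < gapq q d := by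
  unfold gapq
  refine mul_pos ?_ (Cq_pos hq _)
  have h0 : 0 < q ^ (d - 1) := by positivity
  have := inv_lt_inv₀ (show 0 < q ^ d by positivity) h0
  have h2 : q ^ (d - 1) < q ^ d := pow_lt_pow_right₀ hq (by omega)
  linarith [this.2 h2]

/-- If one of the maps is not surjective the probability drops by the gap. -/
theorem gap_le {κ : Type} [Fintype κ] [DecidableEq κ]
    (hk : Fintype.card κ = Module.finrank K W) (g : κ → U →ₗ[K] W) (l : κ)
    (hl : LinearMap.range (g l) ≠ ⊤) :
    av (fun u : κ → U => ind (LinearIndependent K fun j => g j (u j))) ≤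
      Cq (Fintype.card K) (Fintype.card κ) - gapq (Fintype.card K) (Fintype.card κ) := by
  classical
  have : Module.Finite K W := Module.Finite.of_finite
  have hq : (1 : ℝ) < Fintype.card K := by exact_mod_cast Fintype.one_lt_card
  have hq0 : (0 : ℝ) < Fintype.card K := by linarith
  obtain ⟨d, hd⟩ : ∃ d, Fintype.card κ = d + 1 :=
    Nat.exists_eq_succ_of_ne_zero (Fintype.card_pos_iff.2 ⟨l⟩).ne'
  let e : {a : κ // a = l} ⊕ {a : κ // ¬ a = l} ≃ κ := Equiv.sumCompl (fun a => a = l)
  have hcard2 : Fintype.card {a : κ // ¬ a = l} = d := by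
    have h1 := Fintype.card_congr e
    rw [Fintype.card_sum, hd, Fintype.card_subtype_eq] at h1
    omega
  rw [← av_reindex e]
  have hre : (fun u : {a : κ // a = l} ⊕ {a : κ // ¬ a = l} → U =>
      ind (LinearIndependent K fun j => g j (u (e.symm j)))) =
      fun u => ind (LinearIndependent K fun j => g (e j) (u j)) := by
    funext u
    congr 1
    rw [← linearIndependent_equiv e]
    refine propext (Iff.of_eq ?_)
    congr 1
    funext j
    simp
  rw [hre]
  refine (split_le (fun j => g (e j))).trans ?_
  have hstep : ∀ v : {a : κ // a = l} → U,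
      ind (LinearIndependent K fun j => g (e (Sum.inl j)) (v j)) *
        av (fun w : {a : κ // ¬ a = l} → U => ind (LinearIndependent K fun j =>
          ((Submodule.span K (Set.range fun j => g (e (Sum.inl j)) (v j))).mkQ.comp
            (g (e (Sum.inr j)))) (w j))) ≤
      Cq (Fintype.card K) d * ind (g l (v ⟨l, rfl⟩) ∉ (⊥ : Submodule K W)) := by
    intro v
    by_cases hli : LinearIndependent K fun j => g (e (Sum.inl j)) (v j)
    · have h0 : g l (v ⟨l, rfl⟩) ∉ (⊥ : Submodule K W) := by
        have := hli.ne_zero ⟨l, rfl⟩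
        simpa [e] using this
      rw [ind_true hli, ind_true h0, one_mul, mul_one]
      have hfr : Module.finrank K (W ⧸ Submodule.span K
          (Set.range fun j => g (e (Sum.inl j)) (v j))) = d := by
        rw [Submodule.finrank_quotient, finrank_span_eq_card hli, Fintype.card_subtype_eq, ← hk, hd]
        omega
      have := indep_full (K := K) (U := U) (W := W ⧸ Submodule.span K
          (Set.range fun j => g (e (Sum.inl j)) (v j))) (ι := {a : κ // ¬ a = l})
          (by rw [hfr, hcard2]) (fun j => (Submodule.span K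
            (Set.range fun j => g (e (Sum.inl j)) (v j))).mkQ.comp (g (e (Sum.inr j))))
      rw [hcard2] at this
      exact this
    · rw [ind_false hli, zero_mul]
      exact mul_nonneg (Cq_pos hq _).le (ind_nonneg _)
  refine (av_mono _ _ hstep).trans ?_
  rw [av_mul_left]
  have hav : av (fun v : {a : κ // a = l} → U => ind (g l (v ⟨l, rfl⟩) ∉ (⊥ : Submodule K W))) =
      av (fun u : U => ind (g l u ∉ (⊥ : Submodule K W))) := by
    have := unif_equiv (Equiv.funUnique {a : κ // a = l} U)
      (fun u => ind (g l u ∉ (⊥ : Submodule K W)))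
    rw [← this]
    congr 1
  rw [hav]
  have hrange : av (fun u : U => ind (g l u ∉ (⊥ : Submodule K W))) ≤
      1 - ((Fintype.card K : ℝ) ^ d)⁻¹ := by
    rw [av_ind_compl]
    have h1 := av_ker ((g l).rangeRestrict.toAddMonoidHom)
    have h2 : (fun u => ind ((g l).rangeRestrict.toAddMonoidHom u = 0)) =
        fun u => ind (g l u ∈ (⊥ : Submodule K W)) := by
      funext u
      congr 1
      simp only [LinearMap.toAddMonoidHom_coe, Submodule.mem_bot, eq_iff_iff]
      rw [Subtype.ext_iff]
      rfl
    rw [h2] at h1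
    have h3 : (Fintype.card (LinearMap.range (g l)) : ℝ) ≤ (Fintype.card K : ℝ) ^ d := by
      rw [Module.card_eq_pow_finrank (K := K) (V := LinearMap.range (g l))]
      push_cast
      refine pow_le_pow_right₀ hq.le ?_
      have := Submodule.finrank_lt hl
      omega
    have h4 : ((Fintype.card K : ℝ) ^ d)⁻¹ ≤ (Fintype.card (LinearMap.range (g l)) : ℝ)⁻¹ :=
      inv_anti₀ (by exact_mod_cast Fintype.card_pos) h3
    linarith
  refine (mul_le_mul_of_nonneg_left hrange (Cq_pos hq d).le).trans (le_of_eq ?_)
  rw [hd, Cq_succ]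
  unfold gapq
  simp only [Nat.add_sub_cancel]
  ring

/-- The main finite inequality. -/
theorem two_le {ι κ : Type} [Fintype ι] [DecidableEq ι] [Fintype κ] [DecidableEq κ]
    (hk : Fintype.card ι + Fintype.card κ = Module.finrank K W) (f : ι ⊕ κ → U →ₗ[K] W) :
    av (fun u : ι ⊕ κ → U => ind (LinearIndependent K fun j => f j (u j))) ≤
      Cq (Fintype.card K) (Fintype.card κ) *
        av (fun v : ι → U => ind (LinearIndependent K fun j => f (Sum.inl j) (v j))) -
      gapq (Fintype.card K) (Fintype.card κ) *
        (av (fun v : ι → U => ind (LinearIndependent K fun j => f (Sum.inl j) (v j))) -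
          av (fun v : ι → U => ind ((LinearIndependent K fun j => f (Sum.inl j) (v j)) ∧
            ∀ l, Submodule.span K (Set.range fun j => f (Sum.inl j) (v j)) ⊔
              LinearMap.range (f (Sum.inr l)) = ⊤))) := by
  classical
  have : Module.Finite K W := Module.Finite.of_finite
  refine (split_le f).trans ?_
  rw [← av_sub, ← av_mul_left, ← av_mul_left, ← av_sub]
  refine av_mono _ _ fun v => ?_
  by_cases hli : LinearIndependent K fun j => f (Sum.inl j) (v j)
  · have hfr : Fintype.card κ = Module.finrank K (W ⧸ Submodule.span K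
        (Set.range fun j => f (Sum.inl j) (v j))) := by
      rw [Submodule.finrank_quotient, finrank_span_eq_card hli]
      omega
    rw [ind_true hli, one_mul, mul_one]
    by_cases hA : ∀ l, Submodule.span K (Set.range fun j => f (Sum.inl j) (v j)) ⊔
        LinearMap.range (f (Sum.inr l)) = ⊤
    · rw [ind_true ⟨hli, hA⟩, sub_self, mul_zero, sub_zero]
      exact indep_full hfr _
    · rw [ind_false (fun h => hA h.2), sub_zero, mul_one]
      push Not at hA
      obtain ⟨l, hl⟩ := hA
      refine gap_le hfr _ l ?_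
      intro htop
      apply hl
      rw [LinearMap.range_comp] at htop
      have h1 := congrArg (Submodule.comap (Submodule.span K
        (Set.range fun j => f (Sum.inl j) (v j))).mkQ) htop
      rw [Submodule.comap_map_eq, Submodule.ker_mkQ, Submodule.comap_top] at h1
      rw [sup_comm]
      exact h1
  · rw [ind_false hli, ind_false (fun h => hli h.1)]
    simp

end

end Pool.Agent.Q214.CL
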