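import Pool.Agent.Q214.CL.Split

set_option autoImplicit false

namespace Pool.Agent.Q214.CL

open Pool.Agent.Q214.MP59a

/-- Keep the coordinates in `s`, put the others to zero. -/
noncomputable def mask (A : Type) [CommRing A] {n : ℕ} (s : Set (Fin n)) :
    (Fin n → A) →ₗ[A] (Fin n → A) where
  toFun u i := by classical exact if i ∈ s then u i else 0
  map_add' u v := by
    classical
    funext i
    by_cases h : i ∈ s <;> simp [h]
  map_smul' c u := by
    classical
    funext i
    by_cases h : i ∈ s <;> simp [h]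

theorem mask_mem {A : Type} [CommRing A] {n : ℕ} {s : Set (Fin n)} (u : Fin n → A) {i : Fin n}
    (h : i ∈ s) : mask A s u i = u i := by
  simp [mask, h]

theorem mask_not_mem {A : Type} [CommRing A] {n : ℕ} {s : Set (Fin n)} (u : Fin n → A) {i : Fin n}
    (h : i ∉ s) : mask A s u i = 0 := by
  simp [mask, h]

section

variable (p M : ℕ) [hp : Fact p.Prime]

/-- Reduction mod `p`. -/
def red : ZMod (p ^ (M + 1)) →+* ZMod p :=
  ZMod.castHom (dvd_pow_self p (Nat.succ_ne_zero M)) (ZMod p)

theorem red_surj : Function.Surjective (red p M) := ZMod.ringHom_surjective _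

instance : RingHomSurjective (red p M) := ⟨red_surj p M⟩

instance instNZ : NeZero (p ^ (M + 1)) := ⟨pow_ne_zero _ hp.1.ne_zero⟩

omit hp in
theorem p_pow : (p : ZMod (p ^ (M + 1))) ^ (M + 1) = 0 := by
  have := ZMod.natCast_self (p ^ (M + 1))
  rw [Nat.cast_pow] at this
  exact this

theorem red_ker {x : ZMod (p ^ (M + 1))} (h : red p M x = 0) :
    ∃ y, x = (p : ZMod (p ^ (M + 1))) * y := by
  have h1 : (x.val : ZMod (p ^ (M + 1))) = x := ZMod.natCast_zmod_val x
  have h2 : ((x.val : ℕ) : ZMod p) = 0 := by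
    rw [← h1, map_natCast] at h
    exact h
  obtain ⟨k, hk⟩ := (ZMod.natCast_eq_zero_iff _ _).1 h2
  refine ⟨(k : ZMod (p ^ (M + 1))), ?_⟩
  rw [← h1, hk]
  push_cast
  rfl

/-- Coordinatewise reduction. -/
def redL (n : ℕ) : (Fin n → ZMod (p ^ (M + 1))) →ₛₗ[red p M] (Fin n → ZMod p) where
  toFun x i := red p M (x i)
  map_add' x y := by funext i; simp
  map_smul' c x := by funext i; simp

theorem redL_apply (n : ℕ) (x : Fin n → ZMod (p ^ (M + 1))) (i : Fin n) :
    redL p M n x i = red p M (x i) := rfl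

theorem redL_surj (n : ℕ) : Function.Surjective (redL p M n) := by
  intro x
  choose y hy using fun i => red_surj p M (x i)
  exact ⟨y, funext hy⟩

theorem redL_mask {n : ℕ} (s : Set (Fin n)) (u : Fin n → ZMod (p ^ (M + 1))) :
    redL p M n (mask _ s u) = mask _ s (redL p M n u) := by
  funext i
  rw [redL_apply]
  by_cases h : i ∈ s
  · rw [mask_mem _ h, mask_mem _ h]; rfl
  · rw [mask_not_mem _ h, mask_not_mem _ h, map_zero]

/-- Nakayama. -/
theorem nak {n : ℕ} (T : Submodule (ZMod (p ^ (M + 1))) (Fin n → ZMod (p ^ (M + 1))))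
    (h : T.map (redL p M n) = ⊤) : T = ⊤ := by
  have h1 : ∀ x : Fin n → ZMod (p ^ (M + 1)), ∃ t ∈ T, ∃ w : Fin n → ZMod (p ^ (M + 1)),
      x = t + (p : ZMod (p ^ (M + 1))) • w := by
    intro x
    have hx : redL p M n x ∈ T.map (redL p M n) := by rw [h]; trivial
    obtain ⟨t, ht, htx⟩ := Submodule.mem_map.1 hx
    have h2 : ∀ i, ∃ y, x i - t i = (p : ZMod (p ^ (M + 1))) * y := by
      intro i
      apply red_ker
      have := congrFun htx i
      rw [redL_apply, redL_apply] at this
      rw [map_sub, this, sub_self]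
    choose w hw using h2
    refine ⟨t, ht, w, ?_⟩
    funext i
    have := hw i
    simp only [Pi.add_apply, Pi.smul_apply, smul_eq_mul]
    rw [← this]
    ring
  have h2 : ∀ m : ℕ, ∀ x : Fin n → ZMod (p ^ (M + 1)), ∃ t ∈ T,
      ∃ w : Fin n → ZMod (p ^ (M + 1)), x = t + (p : ZMod (p ^ (M + 1))) ^ m • w := by
    intro m
    induction m with
    | zero => intro x; exact ⟨0, T.zero_mem, x, by simp⟩
    | succ m ih =>
      intro x
      obtain ⟨t, ht, w, hw⟩ := ih x
      obtain ⟨t', ht', w', hw'⟩ := h1 w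
      refine ⟨t + (p : ZMod (p ^ (M + 1))) ^ m • t', T.add_mem ht (T.smul_mem _ ht'), w', ?_⟩
      have hpp : (p : ZMod (p ^ (M + 1))) ^ (m + 1) =
          (p : ZMod (p ^ (M + 1))) ^ m * (p : ZMod (p ^ (M + 1))) := pow_succ _ _
      rw [hw, hw', smul_add, smul_smul, hpp, add_assoc]
  rw [eq_top_iff]
  intro x _
  obtain ⟨t, ht, w, hw⟩ := h2 (M + 1) x
  rw [p_pow, zero_smul, add_zero] at hw
  rw [hw]
  exact ht

theorem map_range_mask {n : ℕ} (s : Set (Fin n)) :
    (LinearMap.range (mask (ZMod (p ^ (M + 1))) s)).map (redL p M n) =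
      LinearMap.range (mask (ZMod p) s) := by
  ext x
  constructor
  · intro hx
    obtain ⟨t, ⟨u, rfl⟩, rfl⟩ := Submodule.mem_map.1 hx
    exact ⟨redL p M n u, (redL_mask p M s u).symm⟩
  · rintro ⟨u, rfl⟩
    obtain ⟨v, rfl⟩ := redL_surj p M n u
    exact Submodule.mem_map.2 ⟨mask _ s v, ⟨v, rfl⟩, redL_mask p M s v⟩

theorem map_span_range {n : ℕ} {ι : Type} (y : ι → Fin n → ZMod (p ^ (M + 1))) :
    (Submodule.span (ZMod (p ^ (M + 1))) (Set.range y)).map (redL p M n) =
      Submodule.span (ZMod p) (Set.range fun j => redL p M n (y j)) := by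
  rw [Submodule.map_span, ← Set.range_comp]
  rfl

/-- Coordinates transversal to a system of columns that are independent mod `p`. -/
theorem exists_pi {n k i : ℕ} (hn : k + i = n) (y : Fin k → Fin n → ZMod (p ^ (M + 1)))
    (hy : LinearIndependent (ZMod p) fun j => redL p M n (y j)) :
    ∃ π : (Fin n → ZMod (p ^ (M + 1))) →ₗ[ZMod (p ^ (M + 1))] (Fin i → ZMod (p ^ (M + 1))),
      Function.Surjective π ∧ LinearMap.ker π = Submodule.span _ (Set.range y) := by
  classical
  let F := ZMod p
  let V : Submodule F (Fin n → F) := Submodule.span F (Set.range fun j => redL p M n (y j))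
  have hfr : Module.finrank F ((Fin n → F) ⧸ V) = i := by
    rw [Submodule.finrank_quotient, finrank_span_eq_card hy, Module.finrank_fin_fun,
      Fintype.card_fin]
    omega
  let b := Module.finBasisOfFinrankEq F ((Fin n → F) ⧸ V) hfr
  choose z0 hz0 using fun l => V.mkQ_surjective (b l)
  choose z hz using fun l => redL_surj p M n (z0 l)
  have htop : V ⊔ Submodule.span F (Set.range z0) = ⊤ := by
    have h1 : (Submodule.span F (Set.range z0)).map V.mkQ = ⊤ := by
      rw [Submodule.map_span, ← Set.range_comp]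
      have : (V.mkQ ∘ z0) = b := funext hz0
      rw [this, b.span_eq]
    have h2 := congrArg (Submodule.comap V.mkQ) h1
    rw [Submodule.comap_map_eq, Submodule.ker_mkQ, Submodule.comap_top] at h2
    rw [sup_comm]
    exact h2
  have hT : Submodule.span (ZMod (p ^ (M + 1))) (Set.range y) ⊔
      Submodule.span (ZMod (p ^ (M + 1))) (Set.range z) = ⊤ := by
    apply nak
    rw [Submodule.map_sup, map_span_range, map_span_range]
    have : (fun l => redL p M n (z l)) = z0 := funext hz
    rw [this]
    exact htop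
  let Φ : ((Fin k → ZMod (p ^ (M + 1))) × (Fin i → ZMod (p ^ (M + 1)))) →ₗ[ZMod (p ^ (M + 1))]
      (Fin n → ZMod (p ^ (M + 1))) :=
    LinearMap.coprod (Fintype.linearCombination _ y) (Fintype.linearCombination _ z)
  have hsurj : Function.Surjective Φ := by
    rw [← LinearMap.range_eq_top, LinearMap.range_coprod, Fintype.range_linearCombination,
      Fintype.range_linearCombination]
    exact hT
  have hcard : Fintype.card ((Fin k → ZMod (p ^ (M + 1))) × (Fin i → ZMod (p ^ (M + 1)))) =
      Fintype.card (Fin n → ZMod (p ^ (M + 1))) := by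
    rw [Fintype.card_prod, Fintype.card_fun, Fintype.card_fun, Fintype.card_fun,
      Fintype.card_fin, Fintype.card_fin, Fintype.card_fin, ← pow_add, hn]
  have hbij : Function.Bijective Φ := by
    rw [Fintype.bijective_iff_surjective_and_card]
    exact ⟨hsurj, hcard⟩
  let E := LinearEquiv.ofBijective Φ hbij
  refine ⟨(LinearMap.snd _ _ _).comp E.symm.toLinearMap, ?_, ?_⟩
  · intro d
    refine ⟨E (0, d), ?_⟩
    simp
  · ext x
    rw [LinearMap.mem_ker]
    obtain ⟨⟨c, d⟩, rfl⟩ := E.surjective x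
    simp only [LinearMap.coe_comp, LinearEquiv.coe_coe, Function.comp_apply,
      LinearEquiv.symm_apply_apply, LinearMap.snd_apply]
    rw [← Fintype.range_linearCombination]
    constructor
    · intro hd
      subst hd
      refine ⟨c, ?_⟩
      change _ = Φ (c, 0)
      simp [Φ]
    · rintro ⟨c', hc'⟩
      have : E (c', 0) = E (c, d) := by
        rw [← hc']
        change Φ (c', 0) = _
        simp [Φ]
      have := E.injective this
      exact (congrArg Prod.snd this).symm

end

theorem map_ker_bot {A Q Q' : Type} [CommRing A] [AddCommGroup Q] [AddCommGroup Q'] [Module A Q]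
    [Module A Q'] (π : Q →ₗ[A] Q') : Submodule.map π (LinearMap.ker π) = ⊥ := by
  rw [eq_bot_iff]
  rintro _ ⟨x, hx, rfl⟩
  exact hx

theorem quot_iff {A Q Q' : Type} [CommRing A] [AddCommGroup Q] [AddCommGroup Q'] [Module A Q]
    [Module A Q'] (π : Q →ₗ[A] Q') (hπ : Function.Surjective π) (T : Submodule A Q)
    (hT : LinearMap.ker π ≤ T) (G : Type) [AddCommGroup G] :
    Nonempty ((Q ⧸ T) ≃+ G) ↔ Nonempty ((Q' ⧸ T.map π) ≃+ G) := by
  have hk : LinearMap.ker ((T.map π).mkQ.comp π) = T := by
    rw [LinearMap.ker_comp, Submodule.ker_mkQ, Submodule.comap_map_eq, sup_eq_left]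
    exact hT
  have hs : Function.Surjective ((T.map π).mkQ.comp π) :=
    (Submodule.mkQ_surjective _).comp hπ
  let e1 : (Q ⧸ T) ≃ₗ[A] (Q' ⧸ T.map π) :=
    (Submodule.quotEquivOfEq _ _ hk.symm).trans (LinearMap.quotKerEquivOfSurjective _ hs)
  exact ⟨fun ⟨e⟩ => ⟨e1.symm.toAddEquiv.trans e⟩, fun ⟨e⟩ => ⟨e1.toAddEquiv.trans e⟩⟩

section

variable (p M : ℕ) [hp : Fact p.Prime]

/-- Probability that the cokernel of a uniform square matrix of size `i` over `ℤ/p^(M+1)` is
isomorphic to `G`. -/
noncomputable def hG (i : ℕ) (G : Type) [AddCommGroup G] : ℝ :=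
  av (fun z : Fin i → Fin i → ZMod (p ^ (M + 1)) =>
    ind (Nonempty (((Fin i → ZMod (p ^ (M + 1))) ⧸
      Submodule.span (ZMod (p ^ (M + 1))) (Set.range z)) ≃+ G)))

/-- Law of the cokernel given a good first block. -/
theorem cond_law {n k i : ℕ} (hn : k + i = n) (y : Fin k → Fin n → ZMod (p ^ (M + 1)))
    (hy : LinearIndependent (ZMod p) fun j => redL p M n (y j)) (s : Fin i → Set (Fin n))
    (hs : ∀ l, Submodule.span (ZMod p) (Set.range fun j => redL p M n (y j)) ⊔
      LinearMap.range (mask (ZMod p) (s l)) = ⊤) (G : Type) [AddCommGroup G] :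
    av (fun w : Fin i → Fin n → ZMod (p ^ (M + 1)) =>
      ind (Nonempty (((Fin n → ZMod (p ^ (M + 1))) ⧸
        (Submodule.span (ZMod (p ^ (M + 1))) (Set.range y) ⊔
          Submodule.span (ZMod (p ^ (M + 1))) (Set.range fun l => mask _ (s l) (w l)))) ≃+ G))) =
      hG p M i G := by
  classical
  obtain ⟨π, hπ, hker⟩ := exists_pi p M hn y hy
  have hsur : ∀ l, Function.Surjective (π.comp (mask (ZMod (p ^ (M + 1))) (s l))) := by
    intro l
    have h1 : Submodule.span (ZMod (p ^ (M + 1))) (Set.range y) ⊔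
        LinearMap.range (mask (ZMod (p ^ (M + 1))) (s l)) = ⊤ := by
      apply nak
      rw [Submodule.map_sup, map_span_range, map_range_mask]
      exact hs l
    have h2 := congrArg (Submodule.map π) h1
    rw [Submodule.map_sup, ← hker, Submodule.map_top, LinearMap.range_eq_top.2 hπ,
      ← LinearMap.range_comp] at h2
    have h3 : Submodule.map π (LinearMap.ker π) = ⊥ := map_ker_bot π
    rw [h3, bot_sup_eq] at h2
    exact LinearMap.range_eq_top.1 h2
  have hun : Unif (fun (w : Fin i → Fin n → ZMod (p ^ (M + 1))) (l : Fin i) =>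
      (π.comp (mask (ZMod (p ^ (M + 1))) (s l))) (w l)) :=
    unif_pi (fun l u => (π.comp (mask (ZMod (p ^ (M + 1))) (s l))) u)
      fun l => unif_hom (π.comp (mask (ZMod (p ^ (M + 1))) (s l))).toAddMonoidHom (hsur l)
  unfold hG
  rw [← hun]
  congr 1
  funext w
  congr 1
  apply propext
  rw [quot_iff π hπ _ (by rw [hker]; exact le_sup_left) G, Submodule.map_sup, ← hker]
  have h3 : Submodule.map π (LinearMap.ker π) = ⊥ := map_ker_bot π
  rw [h3, bot_sup_eq, Submodule.map_span, ← Set.range_comp]
  rfl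

/-- Reduction of a uniform block is uniform. -/
theorem unif_red (k n : ℕ) :
    Unif (fun (v : Fin k → Fin n → ZMod (p ^ (M + 1))) (j : Fin k) => redL p M n (v j)) :=
  unif_pi (fun _ u => redL p M n u)
    fun _ => unif_hom (redL p M n).toAddMonoidHom (redL_surj p M n)

/-- Comparison of the law of the cokernel with the law for a uniform matrix of size `i`. -/
theorem cok_compare {n k i : ℕ} (hn : k + i = n) (s : Fin k ⊕ Fin i → Set (Fin n))
    (G : Type) [AddCommGroup G] :
    |av (fun u : Fin k ⊕ Fin i → Fin n → ZMod (p ^ (M + 1)) =>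
        ind (Nonempty (((Fin n → ZMod (p ^ (M + 1))) ⧸
          Submodule.span (ZMod (p ^ (M + 1))) (Set.range fun j => mask _ (s j) (u j))) ≃+ G))) -
      hG p M i G| ≤
      1 - av (fun v : Fin k → Fin n → ZMod p =>
        ind ((LinearIndependent (ZMod p) fun j => mask (ZMod p) (s (Sum.inl j)) (v j)) ∧
            ∀ l, Submodule.span (ZMod p) (Set.range fun j => mask (ZMod p) (s (Sum.inl j)) (v j)) ⊔
              LinearMap.range (mask (ZMod p) (s (Sum.inr l))) = ⊤)) := by
  classical
  let R := ZMod (p ^ (M + 1))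
  have he := unif_equiv (Equiv.sumArrowEquivProdArrow (Fin k) (Fin i) (Fin n → R)).symm
    (fun u => ind (Nonempty (((Fin n → R) ⧸
          Submodule.span R (Set.range fun j => mask _ (s j) (u j))) ≃+ G)))
  have hsp : ∀ q : (Fin k → Fin n → R) × (Fin i → Fin n → R),
      Submodule.span R (Set.range fun j => mask R (s j)
        ((Equiv.sumArrowEquivProdArrow (Fin k) (Fin i) (Fin n → R)).symm q j)) =
      Submodule.span R (Set.range fun j => mask R (s (Sum.inl j)) (q.1 j)) ⊔
      Submodule.span R (Set.range fun j => mask R (s (Sum.inr j)) (q.2 j)) := by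
    intro q
    rw [← Submodule.span_union]
    congr 1
    ext x
    simp only [Set.mem_range, Sum.exists, Set.mem_union]
    rfl
  have he2 : av (fun u : Fin k ⊕ Fin i → Fin n → R => ind (Nonempty (((Fin n → R) ⧸
          Submodule.span R (Set.range fun j => mask _ (s j) (u j))) ≃+ G))) =
      av (fun v : Fin k → Fin n → R => av (fun w : Fin i → Fin n → R =>
        ind (Nonempty (((Fin n → R) ⧸
          (Submodule.span R (Set.range fun j => mask R (s (Sum.inl j)) (v j)) ⊔
      Submodule.span R (Set.range fun j => mask R (s (Sum.inr j)) (w j)))) ≃+ G)))) := by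
    rw [← he, ← av_prod_iter]
    congr 1
    funext q
    congr 1
    rw [hsp q]
  have hA := unif_red p M k n (fun v => ind ((LinearIndependent (ZMod p) fun j =>
    mask (ZMod p) (s (Sum.inl j)) (v j)) ∧
            ∀ l, Submodule.span (ZMod p) (Set.range fun j => mask (ZMod p) (s (Sum.inl j)) (v j)) ⊔
              LinearMap.range (mask (ZMod p) (s (Sum.inr l))) = ⊤))
  rw [← hA]
  change |av (fun u : Fin k ⊕ Fin i → Fin n → R => ind (Nonempty (((Fin n → R) ⧸
          Submodule.span R (Set.range fun j => mask _ (s j) (u j))) ≃+ G))) - _| ≤ _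
  rw [he2]
  have h1 : hG p M i G = av (fun _ : Fin k → Fin n → R => hG p M i G) := (av_const _).symm
  have h2 : (1 : ℝ) = av (fun _ : Fin k → Fin n → R => (1 : ℝ)) := (av_const _).symm
  rw [h1, ← av_sub, h2, ← av_sub]
  have habs : ∀ f : (Fin k → Fin n → R) → ℝ, |av f| ≤ av (fun v => |f v|) := by
    intro f
    unfold av
    rw [abs_div, abs_of_nonneg (Nat.cast_nonneg (α := ℝ) _)]
    exact div_le_div_of_nonneg_right (Finset.abs_sum_le_sum_abs _ _) (Nat.cast_nonneg _)
  refine (habs _).trans (av_mono _ _ fun v => ?_)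
  have hnn : ∀ (H : Prop), 0 ≤ ind H ∧ ind H ≤ 1 := fun H => ⟨ind_nonneg H, ind_le_one H⟩
  have hh0 : 0 ≤ hG p M i G ∧ hG p M i G ≤ 1 := by
    refine ⟨av_nonneg _ fun _ => ind_nonneg _, ?_⟩
    refine (av_mono _ (fun _ => 1) fun _ => ind_le_one _).trans ?_
    exact (av_const _).le
  by_cases hv : (LinearIndependent (ZMod p) fun j =>
    mask (ZMod p) (s (Sum.inl j)) (redL p M n (v j))) ∧
            ∀ l, Submodule.span (ZMod p) (Set.range fun j => mask (ZMod p) (s (Sum.inl j))
              (redL p M n (v j))) ⊔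
              LinearMap.range (mask (ZMod p) (s (Sum.inr l))) = ⊤
  · rw [ind_true hv]
    obtain ⟨hv1, hv2⟩ := hv
    simp only [← redL_mask] at hv1 hv2
    rw [cond_law p M hn (fun j => mask R (s (Sum.inl j)) (v j)) hv1
      (fun l => s (Sum.inr l)) hv2 G]
    simp
  · rw [ind_false hv, sub_zero]
    have h3 : 0 ≤ av (fun w : Fin i → Fin n → R =>
        ind (Nonempty (((Fin n → R) ⧸
          (Submodule.span R (Set.range fun j => mask R (s (Sum.inl j)) (v j)) ⊔
      Submodule.span R (Set.range fun j => mask R (s (Sum.inr j)) (w j)))) ≃+ G))) :=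
      av_nonneg _ fun _ => ind_nonneg _
    have h4 : av (fun w : Fin i → Fin n → R =>
        ind (Nonempty (((Fin n → R) ⧸
          (Submodule.span R (Set.range fun j => mask R (s (Sum.inl j)) (v j)) ⊔
      Submodule.span R (Set.range fun j => mask R (s (Sum.inr j)) (w j)))) ≃+ G))) ≤ 1 := by
      refine (av_mono _ (fun _ => 1) fun _ => ind_le_one _).trans ?_
      exact (av_const _).le
    rw [abs_le]
    constructor <;> linarith [hh0.1, hh0.2]

end

end Pool.Agent.Q214.CL
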